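import Mathlib

set_option autoImplicit false

namespace Pool.Agent.CentralAut

open Subgroup

/-- the free group on `t` and `x_i`. -/
abbrev FF (n : ℕ) := FreeGroup (Option (Fin n))

/-- the generator `t`. -/
def tt (n : ℕ) : FF n := FreeGroup.of none

/-- the generator `x_i`. -/
def xx {n : ℕ} (i : Fin n) : FF n := FreeGroup.of (some i)

/-- the normal closure of `x_i`. -/
def KK {n : ℕ} (i : Fin n) : Subgroup (FF n) := normalClosure {xx i}

/-- the normal closure of all `x_i`. -/
def KB (n : ℕ) : Subgroup (FF n) := normalClosure (Set.range (xx (n := n)))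

instance {n : ℕ} (i : Fin n) : (KK i).Normal := normalClosure_normal
instance {n : ℕ} : (KB n).Normal := normalClosure_normal

/-- defining relations. -/
def relR (p n : ℕ) : Set (FF n) :=
  {g | ∃ i : Fin n, ∃ a ∈ KK i, ∃ b ∈ KK i, g = a * b * a⁻¹ * b⁻¹} ∪
  {g | ∃ h ∈ KB n, g = (h * tt n) ^ p} ∪ {g | ∃ i : Fin n, g = (xx i) ^ p}

/-- the relation subgroup. -/
def RR (p n : ℕ) : Subgroup (FF n) := normalClosure (relR p n)

instance {p n : ℕ} : (RR p n).Normal := normalClosure_normal

/-- generators of `[R,F] R^p`. -/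
def relS (p n : ℕ) : Set (FF n) :=
  {g | ∃ r ∈ RR p n, ∃ f : FF n, g = r * f * r⁻¹ * f⁻¹} ∪ {g | ∃ r ∈ RR p n, g = r ^ p}

/-- `[R,F] R^p`. -/
def SS (p n : ℕ) : Subgroup (FF n) := normalClosure (relS p n)

instance {p n : ℕ} : (SS p n).Normal := normalClosure_normal

/-- the endomorphism killing `x_i`, `i ∈ s`. -/
def th {n : ℕ} (s : Finset (Fin n)) : FF n →* FF n :=
  FreeGroup.lift (fun o => match o with
    | none => tt n
    | some i => if i ∈ s then 1 else xx i)

lemma th_t {n : ℕ} (s : Finset (Fin n)) : th s (tt n) = tt n := by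
  simp [th, tt]

lemma th_x {n : ℕ} (s : Finset (Fin n)) (i : Fin n) :
    th s (xx i) = if i ∈ s then 1 else xx i := by
  simp [th, xx]

lemma xx_mem {n : ℕ} (i : Fin n) : xx i ∈ KK i := subset_normalClosure rfl

lemma KK_le {n : ℕ} (i : Fin n) : KK i ≤ KB n := by
  apply normalClosure_mono
  rintro _ rfl
  exact ⟨i, rfl⟩

lemma th_KK {n : ℕ} (s : Finset (Fin n)) (j : Fin n) {a : FF n} (ha : a ∈ KK j) :
    th s a ∈ KK j := by
  have : KK j ≤ (KK j).comap (th s) := by
    apply normalClosure_le_normal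
    rintro _ rfl
    simp only [SetLike.mem_coe, Subgroup.mem_comap, th_x]
    split_ifs
    · exact one_mem _
    · exact xx_mem j
  exact this ha

lemma th_KB {n : ℕ} (s : Finset (Fin n)) {a : FF n} (ha : a ∈ KB n) : th s a ∈ KB n := by
  have : KB n ≤ (KB n).comap (th s) := by
    apply normalClosure_le_normal
    rintro _ ⟨j, rfl⟩
    simp only [SetLike.mem_coe, Subgroup.mem_comap, th_x]
    split_ifs
    · exact one_mem _
    · exact KK_le j (xx_mem j)
  exact this ha

lemma comm_mem_RR {p n : ℕ} {i : Fin n} {a b : FF n} (ha : a ∈ KK i) (hb : b ∈ KK i) :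
    a * b * a⁻¹ * b⁻¹ ∈ RR p n :=
  subset_normalClosure (Or.inl (Or.inl ⟨i, a, ha, b, hb, rfl⟩))

lemma pow_mem_RR {p n : ℕ} {h : FF n} (hh : h ∈ KB n) : (h * tt n) ^ p ∈ RR p n :=
  subset_normalClosure (Or.inl (Or.inr ⟨h, hh, rfl⟩))

lemma tpow_mem_RR {p n : ℕ} : (tt n) ^ p ∈ RR p n := by
  have := pow_mem_RR (p := p) (n := n) (h := 1) (one_mem _)
  simpa using this

lemma xpow_mem_RR {p n : ℕ} (i : Fin n) : (xx i) ^ p ∈ RR p n :=
  subset_normalClosure (Or.inr ⟨i, rfl⟩)

lemma th_RR {p n : ℕ} (s : Finset (Fin n)) {a : FF n} (ha : a ∈ RR p n) : th s a ∈ RR p n := by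
  have : RR p n ≤ (RR p n).comap (th s) := by
    apply normalClosure_le_normal
    rintro g ((⟨i, a, ha, b, hb, rfl⟩ | ⟨h, hh, rfl⟩) | ⟨i, rfl⟩)
    · simp only [SetLike.mem_coe, Subgroup.mem_comap, map_mul, map_inv]
      exact comm_mem_RR (th_KK s i ha) (th_KK s i hb)
    · simp only [SetLike.mem_coe, Subgroup.mem_comap, map_mul, map_pow, th_t]
      exact pow_mem_RR (th_KB s hh)
    · simp only [SetLike.mem_coe, Subgroup.mem_comap, map_pow, th_x]
      split_ifs
      · simp
      · exact xpow_mem_RR i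
  exact this ha

lemma KK_pow {p n : ℕ} (i : Fin n) {a : FF n} (ha : a ∈ KK i) : a ^ p ∈ RR p n := by
  have key : ∀ a ∈ KK i, a ^ p ∈ RR p n := by
    intro a ha
    unfold KK normalClosure at ha
    have hsub : ∀ z ∈ closure (Group.conjugatesOfSet {xx i}), z ∈ KK i := fun z hz => hz
    induction ha using Subgroup.closure_induction with
    | mem z hz =>
      rw [Group.mem_conjugatesOfSet_iff] at hz
      obtain ⟨b, hb, hbz⟩ := hz
      rw [Set.mem_singleton_iff] at hb
      subst hb
      obtain ⟨c, hc⟩ := isConj_iff.1 hbz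
      rw [← hc, conj_pow]
      exact (inferInstance : (RR p n).Normal).conj_mem _ (xpow_mem_RR i) c
    | one => simp
    | mul a b ha hb iha ihb =>
      have h1 : (QuotientGroup.mk (a * b * a⁻¹ * b⁻¹) : FF n ⧸ RR p n) = 1 :=
        (QuotientGroup.eq_one_iff _).2 (comm_mem_RR (hsub a ha) (hsub b hb))
      have hc : Commute (QuotientGroup.mk a : FF n ⧸ RR p n) (QuotientGroup.mk b) := by
        simp only [QuotientGroup.mk_mul, QuotientGroup.mk_inv] at h1
        rw [mul_inv_eq_one, mul_inv_eq_iff_eq_mul] at h1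
        exact h1
      rw [← QuotientGroup.eq_one_iff, QuotientGroup.mk_pow, QuotientGroup.mk_mul, hc.mul_pow,
        ← QuotientGroup.mk_pow, ← QuotientGroup.mk_pow, (QuotientGroup.eq_one_iff _).2 iha,
        (QuotientGroup.eq_one_iff _).2 ihb, one_mul]
    | inv a ha iha =>
      rw [inv_pow]
      exact inv_mem iha
  exact key a ha

lemma th_comp {n : ℕ} (s : Finset (Fin n)) (i : Fin n) (a : FF n) :
    th {i} (th s a) = th (insert i s) a := by
  have : (th {i}).comp (th s) = th (insert i s) := by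
    ext o
    cases o with
    | none =>
      show (th {i}) (th s (tt n)) = th (insert i s) (tt n)
      rw [th_t, th_t, th_t]
    | some j =>
      show (th {i}) (th s (xx j)) = th (insert i s) (xx j)
      rw [th_x, th_x]
      by_cases hj : j ∈ s
      · simp [hj]
      · simp [hj, th_x]
  exact DFunLike.congr_fun this a

/-- `u θ_i(u)⁻¹ ∈ K_i`. -/
lemma mul_th_inv_mem {n : ℕ} (i : Fin n) (u : FF n) : u * (th {i} u)⁻¹ ∈ KK i := by
  have : (QuotientGroup.mk' (KK i)) = (QuotientGroup.mk' (KK i)).comp (th {i}) := by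
    ext o
    cases o with
    | none =>
      show (QuotientGroup.mk' (KK i)) (tt n) = (QuotientGroup.mk' (KK i)) (th {i} (tt n))
      rw [th_t]
    | some j =>
      show (QuotientGroup.mk' (KK i)) (xx j) = (QuotientGroup.mk' (KK i)) (th {i} (xx j))
      rw [th_x]
      by_cases hj : j = i
      · subst hj
        simp only [Finset.mem_singleton, if_true, map_one]
        exact (QuotientGroup.eq_one_iff _).2 (xx_mem j)
      · simp [hj]
  have h := DFunLike.congr_fun this u
  simp only [MonoidHom.comp_apply, QuotientGroup.mk'_apply] at h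
  rw [← QuotientGroup.eq_one_iff, QuotientGroup.mk_mul, QuotientGroup.mk_inv, ← h, mul_inv_cancel]

lemma exists_moved {p n : ℕ} (u : FF n) (hu : u ∈ KB n) (hR : u ∉ RR p n) :
    ∃ i : Fin n, u * (th {i} u)⁻¹ ∉ RR p n := by
  by_contra hcon
  push Not at hcon
  apply hR
  have key : ∀ s : Finset (Fin n), u * (th s u)⁻¹ ∈ RR p n := by
    intro s
    induction s using Finset.induction_on with
    | empty =>
      have : th (∅ : Finset (Fin n)) = MonoidHom.id _ := by
        ext o
        cases o with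
        | none => exact th_t _
        | some j =>
          show th ∅ (xx j) = xx j
          simp [th_x]
      simp [this]
    | insert i s hi ih =>
      rw [← th_comp]
      have h1 := th_RR {i} ih
      have h2 := hcon i
      rw [map_mul, map_inv] at h1
      have := mul_mem h2 h1
      simpa [mul_assoc] using this
  have huniv : th Finset.univ u = 1 := by
    have : KB n ≤ (th (Finset.univ : Finset (Fin n))).ker := by
      apply normalClosure_le_normal
      rintro _ ⟨j, rfl⟩
      simp [MonoidHom.mem_ker, th_x]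
    exact this hu
  have := key Finset.univ
  simpa [huniv] using this

/-- separating functionals. -/
lemma exists_char_add {p : ℕ} [Fact p.Prime] {V : Type*} [AddCommGroup V]
    (hp : ∀ a : V, p • a = 0) (c : V) (hcn : c ≠ 0) :
    ∃ w : V → ZMod p, (∀ a b, w (a + b) = w a + w b) ∧ w c ≠ 0 := by
  let inst : Module (ZMod p) V := AddCommGroup.zmodModule (n := p) hp
  let b := Module.Basis.ofVectorSpace (ZMod p) V
  have h2 : ∃ i, b.repr c i ≠ 0 := by
    by_contra h
    push Not at h
    apply hcn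
    apply b.repr.injective
    ext i
    simpa using h i
  obtain ⟨i, hi⟩ := h2
  exact ⟨fun a => b.repr a i, fun x y => by simp, hi⟩

/-- separating characters of abelian groups of exponent `p`. -/
lemma exists_char_comm {p : ℕ} [Fact p.Prime] {N : Type*} [CommGroup N]
    (hp : ∀ a : N, a ^ p = 1) (c : N) (hcn : c ≠ 1) :
    ∃ w : N → ZMod p, (∀ a b, w (a * b) = w a + w b) ∧ w c ≠ 0 := by
  obtain ⟨w, h1, h2⟩ := exists_char_add (p := p) (V := Additive N)
    (fun a => by
      rw [← ofMul_toMul a, ← ofMul_pow, hp, ofMul_one]) (Additive.ofMul c)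
    (fun h => hcn (ofMul_eq_zero.1 h))
  exact ⟨fun a => w (Additive.ofMul a), fun a b => h1 _ _, h2⟩

lemma exists_char {p : ℕ} [Fact p.Prime] {N : Type*} [Group N] (hc : ∀ a b : N, a * b = b * a)
    (hp : ∀ a : N, a ^ p = 1) (c : N) (hcn : c ≠ 1) :
    ∃ w : N → ZMod p, (∀ a b, w (a * b) = w a + w b) ∧ w c ≠ 0 :=
  @exists_char_comm p _ N { (inferInstance : Group N) with mul_comm := hc } hp c hcn

section Key

variable {p n : ℕ}

/-- the relatively free group `F/R`. -/
abbrev HH (p n : ℕ) := FF n ⧸ RR p n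

/-- class of an element. -/
def mk' (p : ℕ) {n : ℕ} (u : FF n) : HH p n := QuotientGroup.mk u

lemma mk_mul (u v : FF n) : mk' p (u * v) = mk' p u * mk' p v := rfl
lemma mk_inv (u : FF n) : mk' p (u⁻¹) = (mk' p u)⁻¹ := rfl
lemma mk_one : mk' p (1 : FF n) = 1 := rfl
lemma mk_pow (u : FF n) (k : ℕ) : mk' p (u ^ k) = (mk' p u) ^ k := rfl
lemma mk_eq_one {u : FF n} : mk' p u = 1 ↔ u ∈ RR p n := QuotientGroup.eq_one_iff u

/-- the retraction killing `x_i`. -/
def rho (p : ℕ) (i : Fin n) : HH p n →* HH p n :=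
  QuotientGroup.map (RR p n) (RR p n) (th {i}) (fun _ ha => th_RR {i} ha)

lemma rho_mk (i : Fin n) (u : FF n) : rho p i (mk' p u) = mk' p (th {i} u) := rfl

/-- the kernel of the retraction. -/
abbrev NN (p : ℕ) (i : Fin n) : Subgroup (HH p n) := (rho p i).ker

lemma NN_exists (i : Fin n) (y : NN p i) : ∃ k ∈ KK i, mk' p k = (y : HH p n) := by
  obtain ⟨f, hf⟩ := QuotientGroup.mk_surjective (y : HH p n)
  refine ⟨f * (th {i} f)⁻¹, mul_th_inv_mem i f, ?_⟩
  have hf' : mk' p f = (y : HH p n) := hf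
  have h1 : rho p i (mk' p f) = 1 := by rw [hf']; exact y.2
  rw [rho_mk] at h1
  rw [mk_mul, mk_inv, h1, inv_one, mul_one, hf']

lemma KK_comm {i : Fin n} {a b : FF n} (ha : a ∈ KK i) (hb : b ∈ KK i) :
    mk' p a * mk' p b = mk' p b * mk' p a := by
  have h1 : mk' p (a * b * a⁻¹ * b⁻¹) = 1 := mk_eq_one.2 (comm_mem_RR ha hb)
  rw [mk_mul, mk_mul, mk_mul, mk_inv, mk_inv, mul_inv_eq_one, mul_inv_eq_iff_eq_mul] at h1
  exact h1

lemma NN_comm (i : Fin n) (a b : NN p i) : a * b = b * a := by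
  obtain ⟨k, hk, hk'⟩ := NN_exists i a
  obtain ⟨l, hl, hl'⟩ := NN_exists i b
  apply Subtype.ext
  rw [Subgroup.coe_mul, Subgroup.coe_mul, ← hk', ← hl']
  exact KK_comm hk hl

lemma NN_pow (i : Fin n) (a : NN p i) : a ^ p = 1 := by
  obtain ⟨k, hk, hk'⟩ := NN_exists i a
  apply Subtype.ext
  rw [Subgroup.coe_pow, ← hk', ← mk_pow]
  exact mk_eq_one.2 (KK_pow i hk)

/-- the action of `F` on `NN`. -/
def acf (i : Fin n) (f : FF n) (y : NN p i) : NN p i :=
  ⟨mk' p f * y * (mk' p (th {i} f))⁻¹, by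
    rw [MonoidHom.mem_ker, map_mul, map_mul, map_inv, rho_mk, rho_mk, th_comp, y.2]
    simp⟩

/-- conjugation. -/
def cj (i : Fin n) (f : FF n) (y : NN p i) : NN p i :=
  ⟨mk' p f * y * (mk' p f)⁻¹, (inferInstance : (NN p i).Normal).conj_mem _ y.2 _⟩

lemma acf_mul (i : Fin n) (f g : FF n) (y : NN p i) : acf i (f * g) y = acf i f (acf i g y) := by
  apply Subtype.ext
  simp only [acf, map_mul, mk_mul]
  group

lemma acf_one (i : Fin n) (y : NN p i) : acf i 1 y = y := by
  apply Subtype.ext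
  simp [acf, mk_one]

lemma cj_mul (i : Fin n) (f g : FF n) (y : NN p i) : cj i (f * g) y = cj i f (cj i g y) := by
  apply Subtype.ext
  simp only [cj, mk_mul]
  group

lemma cj_one (i : Fin n) (y : NN p i) : cj i 1 y = y := by
  apply Subtype.ext
  simp [cj, mk_one]

lemma cj_map_mul (i : Fin n) (f : FF n) (a b : NN p i) : cj i f (a * b) = cj i f a * cj i f b := by
  apply Subtype.ext
  simp only [cj, Subgroup.coe_mul]
  group

lemma acf_eq (i : Fin n) (f : FF n) (y : NN p i) : acf i f y = cj i f y * acf i f 1 := by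
  apply Subtype.ext
  simp only [acf, cj, Subgroup.coe_mul, Subgroup.coe_one]
  group

/-- the action as permutations. -/
def actP (i : Fin n) (f : FF n) : Equiv.Perm (NN p i) where
  toFun := acf i f
  invFun := acf i f⁻¹
  left_inv y := by rw [← acf_mul]; simp [acf_one]
  right_inv y := by rw [← acf_mul]; simp [acf_one]

/-- skew permutations. -/
def PP {N : Type*} (e : Equiv.Perm N) (φ : N → ZMod p) : Equiv.Perm (N × ZMod p) where
  toFun q := (e q.1, q.2 + φ q.1)
  invFun q := (e.symm q.1, q.2 - φ (e.symm q.1))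
  left_inv q := by simp
  right_inv q := by simp

/-- the representation. -/
def Theta (i : Fin n) (w : NN p i → ZMod p) : FF n →* Equiv.Perm (NN p i × ZMod p) :=
  FreeGroup.lift (fun o => match o with
    | none => PP (actP i (tt n)) w
    | some j => PP (actP i (xx j)) (fun _ => 0))

/-- affine form of `Theta`. -/
def Aff (i : Fin n) (w : NN p i → ZMod p) (f : FF n) (s : ZMod p) (μ : NN p i → ZMod p) : Prop :=
  (∀ a b, μ (a * b) = μ a + μ b) ∧
    ∀ (y : NN p i) (z : ZMod p), Theta i w f (y, z) = (acf i f y, z + s + μ y)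

variable {i : Fin n} {w : NN p i → ZMod p}

lemma Aff_mul {f g : FF n} {s s' : ZMod p} {μ μ' : NN p i → ZMod p}
    (h : Aff i w f s μ) (h' : Aff i w g s' μ') :
    Aff i w (f * g) (s' + s + μ (acf i g 1)) (fun y => μ' y + μ (cj i g y)) := by
  refine ⟨fun a b => ?_, fun y z => ?_⟩
  · beta_reduce
    rw [cj_map_mul, h.1, h'.1]; ring
  · rw [map_mul, Equiv.Perm.mul_apply, h'.2, h.2, acf_mul]
    congr 1
    rw [acf_eq i g y, h.1]
    ring

lemma Aff_unique {f : FF n} {s s' : ZMod p} {μ μ' : NN p i → ZMod p}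
    (h : Aff i w f s μ) (h' : Aff i w f s' μ') : s = s' ∧ μ = μ' := by
  have hs : ∀ ν : NN p i → ZMod p, (∀ a b, ν (a * b) = ν a + ν b) → ν 1 = 0 := by
    intro ν hν
    have := hν 1 1
    rw [mul_one] at this
    linear_combination -this
  have h1 : s = s' := by
    have := (h.2 1 0).symm.trans (h'.2 1 0)
    have := congrArg Prod.snd this
    simpa [hs μ h.1, hs μ' h'.1] using this
  refine ⟨h1, funext fun y => ?_⟩
  have := (h.2 y 0).symm.trans (h'.2 y 0)
  have := congrArg Prod.snd this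
  simp only [h1] at this
  linear_combination this

lemma Aff_one : Aff i w 1 0 (fun _ => 0) := by
  refine ⟨fun a b => by simp, fun y z => ?_⟩
  simp [acf_one]

lemma Aff_inv {f : FF n} {s : ZMod p} {μ : NN p i → ZMod p} (h : Aff i w f s μ) :
    Aff i w f⁻¹ (-s - μ (acf i f⁻¹ 1)) (fun y => - μ (cj i f⁻¹ y)) := by
  refine ⟨fun a b => ?_, fun y z => ?_⟩
  · beta_reduce
    rw [cj_map_mul, h.1]; ring
  · rw [map_inv, Equiv.Perm.inv_eq_iff_eq]
    rw [h.2, ← acf_mul, mul_inv_cancel, acf_one]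
    congr 1
    rw [acf_eq i f⁻¹ y, h.1]
    ring

lemma Aff_t (hw : ∀ a b, w (a * b) = w a + w b) : Aff i w (tt n) 0 w := by
  refine ⟨hw, fun y z => ?_⟩
  simp [Theta, tt, PP, actP]

lemma Aff_x (j : Fin n) : Aff i w (xx j) 0 (fun _ => 0) := by
  refine ⟨fun a b => by simp, fun y z => ?_⟩
  simp [Theta, xx, PP, actP]

lemma exists_aff (hw : ∀ a b, w (a * b) = w a + w b) (f : FF n) : ∃ s μ, Aff i w f s μ := by
  induction f using FreeGroup.induction_on with
  | C1 => exact ⟨_, _, Aff_one⟩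
  | of o =>
    cases o with
    | none => exact ⟨_, _, Aff_t hw⟩
    | some j => exact ⟨_, _, Aff_x j⟩
  | inv_of o ih =>
    obtain ⟨s, μ, h⟩ := ih
    exact ⟨_, _, Aff_inv h⟩
  | mul f g ihf ihg =>
    obtain ⟨s, μ, h⟩ := ihf
    obtain ⟨s', μ', h'⟩ := ihg
    exact ⟨_, _, Aff_mul h h'⟩

/-- the translation part. -/
def sg (i : Fin n) (w : NN p i → ZMod p) (f : FF n) : ZMod p := (Theta i w f (1, 0)).2

/-- the cocycle. -/
def mu (i : Fin n) (w : NN p i → ZMod p) (f : FF n) (y : NN p i) : ZMod p :=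
  (Theta i w f (y, 0)).2 - (Theta i w f (1, 0)).2

lemma mu_spec (hw : ∀ a b, w (a * b) = w a + w b) (f : FF n) :
    Aff i w f (sg i w f) (mu i w f) := by
  obtain ⟨s, μ, h⟩ := exists_aff (i := i) hw f
  have h1 : μ 1 = 0 := by
    have := h.1 1 1
    rw [mul_one] at this
    linear_combination -this
  have h2 : (Theta i w f (1, 0)).2 = s := by rw [h.2]; simp [h1]
  have h3 : mu i w f = μ := by
    funext y
    rw [mu, h2, h.2]; simp
  rw [sg, h2, h3]
  exact h

lemma mu_map_mul (hw : ∀ a b, w (a * b) = w a + w b) (f : FF n) (a b : NN p i) :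
    mu i w f (a * b) = mu i w f a + mu i w f b := (mu_spec hw f).1 a b

lemma mu_map_one (hw : ∀ a b, w (a * b) = w a + w b) (f : FF n) : mu i w f 1 = 0 := by
  have := mu_map_mul hw f 1 1
  rw [mul_one] at this
  linear_combination -this

lemma mu_mul (hw : ∀ a b, w (a * b) = w a + w b) (f g : FF n) (y : NN p i) :
    mu i w (f * g) y = mu i w g y + mu i w f (cj i g y) :=
  congrFun (Aff_unique (mu_spec hw (f * g)) (Aff_mul (mu_spec hw f) (mu_spec hw g))).2 y

lemma mu_inv (hw : ∀ a b, w (a * b) = w a + w b) (f : FF n) (y : NN p i) :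
    mu i w f⁻¹ y = - mu i w f (cj i f⁻¹ y) :=
  congrFun (Aff_unique (mu_spec hw f⁻¹) (Aff_inv (mu_spec hw f))).2 y

lemma mu_t (hw : ∀ a b, w (a * b) = w a + w b) : mu i w (tt n) = w :=
  (Aff_unique (mu_spec hw (tt n)) (Aff_t hw)).2

lemma mu_x (hw : ∀ a b, w (a * b) = w a + w b) (j : Fin n) (y : NN p i) : mu i w (xx j) y = 0 :=
  congrFun (Aff_unique (mu_spec hw (xx j)) (Aff_x j)).2 y

/-- conjugation by elements of `K_j` does not change `mu a`, `a ∈ K_j`. -/
lemma mu_cj_invariant (hw : ∀ a b, w (a * b) = w a + w b) (j : Fin n) {a : FF n} (ha : a ∈ KK j) :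
    ∀ b ∈ KK j, ∀ y : NN p i, mu i w a (cj i b y) = mu i w a y := by
  unfold KK normalClosure at ha
  induction ha using Subgroup.closure_induction with
  | mem z hz =>
    rw [Group.mem_conjugatesOfSet_iff] at hz
    obtain ⟨x0, hx0, hxz⟩ := hz
    rw [Set.mem_singleton_iff] at hx0
    subst hx0
    obtain ⟨f, hf⟩ := isConj_iff.1 hxz
    intro b hb y
    have form : ∀ y : NN p i, mu i w z y =
        mu i w f (cj i (xx j) (cj i f⁻¹ y)) - mu i w f (cj i f⁻¹ y) := by
      intro y
      rw [← hf, mu_mul hw, mu_mul hw, mu_x hw, mu_inv hw]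
      ring
    rw [form, form]
    -- b' = f⁻¹ b f ∈ K_j
    set b' := f⁻¹ * b * f with hb'
    have hb'm : b' ∈ KK j := by
      have := (inferInstance : (KK j).Normal).conj_mem b hb f⁻¹
      simpa [hb'] using this
    have e1 : cj i f⁻¹ (cj i b y) = cj i b' (cj i f⁻¹ y) := by
      rw [← cj_mul, ← cj_mul, hb']
      congr 1
      group
    rw [e1]
    set y' := cj i f⁻¹ y
    -- m = [b', y']
    obtain ⟨m, hm⟩ : ∃ m : NN p i, m = cj i b' y' * y'⁻¹ := ⟨_, rfl⟩
    have e2 : cj i b' y' = m * y' := by rw [hm]; group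
    obtain ⟨k, hk, hky⟩ := NN_exists i y'
    -- m commutes with x_j
    have e3 : cj i (xx j) m = m := by
      apply Subtype.ext
      have h4 : (m : HH p n) = mk' p (b' * (k * b'⁻¹ * k⁻¹)) := by
        rw [hm]
        simp only [cj, Subgroup.coe_mul, Subgroup.coe_inv, ← hky, mk_mul, mk_inv]
        group
      have h5 : b' * (k * b'⁻¹ * k⁻¹) ∈ KK j :=
        mul_mem hb'm ((inferInstance : (KK j).Normal).conj_mem _ (inv_mem hb'm) k)
      simp only [cj]
      rw [h4, KK_comm (xx_mem j) h5]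
      group
    rw [e2, cj_map_mul, e3, mu_map_mul hw, mu_map_mul hw]
    ring
  | one =>
    intro b hb y
    have : ∀ y : NN p i, mu i w 1 y = 0 := by
      intro y
      have := mu_mul hw 1 1 y
      rw [cj_one, mul_one] at this
      linear_combination -this
    rw [this, this]
  | mul a c ha hc iha ihc =>
    intro b hb y
    rw [mu_mul hw, mu_mul hw, ihc b hb]
    congr 1
    have hcK : c ∈ KK j := hc
    rw [iha c hcK, iha c hcK, iha b hb]
  | inv a ha iha =>
    intro b hb y
    have haK : a⁻¹ ∈ KK j := inv_mem ha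
    rw [mu_inv hw, mu_inv hw, iha _ haK, iha _ haK, iha b hb]

lemma mu_one (hw : ∀ a b, w (a * b) = w a + w b) (y : NN p i) : mu i w 1 y = 0 := by
  have := mu_mul hw 1 1 y
  rw [cj_one, mul_one] at this
  linear_combination -this

lemma mu_pow (hw : ∀ a b, w (a * b) = w a + w b) (f : FF n) (y : NN p i) {k0 : FF n}
    (hk : mk' p k0 = (y : HH p n)) (k : ℕ) :
    ∃ v : NN p i, (v : HH p n) = mk' p ((k0 * f) ^ k * (f ^ k)⁻¹) ∧
      mu i w (f ^ k) y = mu i w f v := by
  induction k with
  | zero => exact ⟨1, by simp [mk_one], by rw [pow_zero, mu_one hw, mu_map_one hw]⟩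
  | succ k ih =>
    obtain ⟨v, hv, hv'⟩ := ih
    refine ⟨v * cj i (f ^ k) y, ?_, ?_⟩
    · rw [Subgroup.coe_mul, hv]
      show mk' p ((k0 * f) ^ k * (f ^ k)⁻¹) *
        (mk' p (f ^ k) * (y : HH p n) * (mk' p (f ^ k))⁻¹) = _
      rw [← hk, ← mk_mul, ← mk_inv, ← mk_mul, ← mk_mul]
      congr 1
      rw [pow_succ (k0 * f), pow_succ' f]
      group
    · rw [pow_succ', mu_mul hw, hv', mu_map_mul hw]

/-- equality of conjugations for elements with the same class. -/
lemma cj_congr {f g : FF n} (h : mk' p f = mk' p g) (y : NN p i) : cj i f y = cj i g y := by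
  apply Subtype.ext
  simp only [cj, h]

/-- the cocycle vanishes on the relations. -/
lemma mu_RR (hw : ∀ a b, w (a * b) = w a + w b) {r : FF n} (hr : r ∈ RR p n) :
    ∀ y : NN p i, mu i w r y = 0 := by
  -- the set of r in RR with mu r = 0 is a normal subgroup
  let M : Subgroup (FF n) :=
    { carrier := {r | r ∈ RR p n ∧ ∀ y : NN p i, mu i w r y = 0}
      mul_mem' := by
        rintro a b ⟨ha, ha'⟩ ⟨hb, hb'⟩
        refine ⟨mul_mem ha hb, fun y => ?_⟩
        rw [mu_mul hw, ha', hb', add_zero]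
      one_mem' := ⟨one_mem _, fun y => mu_one hw y⟩
      inv_mem' := by
        rintro a ⟨ha, ha'⟩
        refine ⟨inv_mem ha, fun y => ?_⟩
        rw [mu_inv hw, ha', neg_zero] }
  have hMn : M.Normal := by
    constructor
    rintro r ⟨hr, hr'⟩ f
    refine ⟨(inferInstance : (RR p n).Normal).conj_mem r hr f, fun y => ?_⟩
    rw [mu_mul hw, mu_mul hw, mu_inv hw, hr']
    have : cj i r (cj i f⁻¹ y) = cj i f⁻¹ y := by
      have h1 : mk' p r = mk' p (1 : FF n) := by rw [mk_one]; exact mk_eq_one.2 hr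
      rw [cj_congr h1, cj_one]
    rw [this]
    ring
  have hle : RR p n ≤ M := by
    apply normalClosure_le_normal
    rintro g ((⟨j, a, ha, b, hb, rfl⟩ | ⟨h, hh, rfl⟩) | ⟨j, rfl⟩)
    · refine ⟨comm_mem_RR ha hb, fun y => ?_⟩
      have h1 : a * b * a⁻¹ * b⁻¹ = (a * b) * (b * a)⁻¹ := by group
      have h2 : mk' p (a * b) = mk' p (b * a) := by rw [mk_mul, mk_mul]; exact KK_comm ha hb
      rw [h1, mu_mul hw, mu_inv hw]
      have h3 : ∀ y : NN p i, mu i w (a * b) y = mu i w (b * a) y := by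
        intro y
        rw [mu_mul hw, mu_mul hw, mu_cj_invariant hw j ha b hb, mu_cj_invariant hw j hb a ha]
        ring
      rw [h3]
      ring
    · refine ⟨pow_mem_RR hh, fun y => ?_⟩
      obtain ⟨k0, hk0, hk0'⟩ := NN_exists i y
      obtain ⟨v, hv, hv'⟩ := mu_pow hw (h * tt n) y hk0' p
      rw [hv']
      have : v = 1 := by
        apply Subtype.ext
        rw [hv, Subgroup.coe_one]
        apply mk_eq_one.2
        apply mul_mem _ (inv_mem (pow_mem_RR hh))
        rw [← mul_assoc]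
        exact pow_mem_RR (mul_mem (KK_le i hk0) hh)
      rw [this, mu_map_one hw]
    · refine ⟨xpow_mem_RR j, fun y => ?_⟩
      obtain ⟨k0, hk0, hk0'⟩ := NN_exists i y
      obtain ⟨v, hv, hv'⟩ := mu_pow hw (xx j) y hk0' p
      rw [hv', mu_x hw]
  exact (hle hr).2

lemma acf_RR {r : FF n} (hr : r ∈ RR p n) (y : NN p i) : acf i r y = y := by
  apply Subtype.ext
  have h1 : mk' p r = 1 := mk_eq_one.2 hr
  have h2 : mk' p (th {i} r) = 1 := mk_eq_one.2 (th_RR {i} hr)
  simp [acf, h1, h2]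

/-- relations act as translations. -/
lemma Theta_RR (hw : ∀ a b, w (a * b) = w a + w b) {r : FF n} (hr : r ∈ RR p n) :
    ∃ s : ZMod p, ∀ (y : NN p i) (z : ZMod p), Theta i w r (y, z) = (y, z + s) := by
  refine ⟨sg i w r, fun y z => ?_⟩
  rw [(mu_spec hw r).2, mu_RR hw hr, acf_RR hr, add_zero]

lemma Theta_shift (hw : ∀ a b, w (a * b) = w a + w b) (f : FF n) (y : NN p i) (z s : ZMod p) :
    Theta i w f (y, z + s) = ((Theta i w f (y, z)).1, (Theta i w f (y, z)).2 + s) := by
  rw [(mu_spec hw f).2, (mu_spec hw f).2]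
  congr 1
  ring

lemma Theta_SS [Fact p.Prime] (hw : ∀ a b, w (a * b) = w a + w b) :
    SS p n ≤ (Theta i w).ker := by
  apply normalClosure_le_normal
  rintro g (⟨r, hr, f, rfl⟩ | ⟨r, hr, rfl⟩)
  · obtain ⟨s, hs⟩ := Theta_RR (i := i) hw hr
    show Theta i w (r * f * r⁻¹ * f⁻¹) = 1
    rw [map_mul, map_mul, map_mul, map_inv, map_inv, mul_inv_eq_one, mul_inv_eq_iff_eq_mul]
    ext1 q
    obtain ⟨y, z⟩ := q
    rw [Equiv.Perm.mul_apply, Equiv.Perm.mul_apply, hs y z, Theta_shift hw]
    obtain ⟨y', z'⟩ := Theta i w f (y, z)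
    rw [hs]
  · obtain ⟨s, hs⟩ := Theta_RR (i := i) hw hr
    show Theta i w (r ^ p) = 1
    rw [map_pow]
    have key : ∀ (k : ℕ) (y : NN p i) (z : ZMod p), (Theta i w r ^ k) (y, z) = (y, z + k * s) := by
      intro k
      induction k with
      | zero => intro y z; simp
      | succ k ih =>
        intro y z
        rw [pow_succ', Equiv.Perm.mul_apply, ih, hs]
        congr 1
        push_cast
        ring
    ext1 q
    obtain ⟨y, z⟩ := q
    rw [key]
    simp

end Key

/-- Key theorem: elements of `<<x>>` commuting with `t` modulo `[R,F]R^p` lie in `R`. -/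
theorem key {p n : ℕ} [Fact p.Prime] (u : FF n) (hu : u ∈ KB n)
    (hc : u * tt n * u⁻¹ * (tt n)⁻¹ ∈ SS p n) : u ∈ RR p n := by
  by_contra hR
  obtain ⟨i, hi⟩ := exists_moved (p := p) u hu hR
  have hc1 : acf (p := p) i u 1 ≠ 1 := by
    intro h
    apply hi
    have := congrArg Subtype.val h
    simp only [acf, Subgroup.coe_one, mul_one] at this
    rw [← mk_inv, ← mk_mul] at this
    exact mk_eq_one.1 this
  obtain ⟨w, hw, hwc⟩ := exists_char (p := p) (NN_comm i) (NN_pow i) _ hc1
  have h1 := Theta_SS (i := i) hw hc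
  rw [MonoidHom.mem_ker, map_mul, map_mul, map_mul, map_inv, map_inv, mul_inv_eq_one,
    mul_inv_eq_iff_eq_mul] at h1
  have h2 := congrArg (fun e => (e (1, 0)).2) h1
  simp only [Equiv.Perm.mul_apply] at h2
  rw [(Aff_t hw).2, (mu_spec hw u).2, (mu_spec hw u).2, (Aff_t hw).2] at h2
  apply hwc
  have h3 : acf (p := p) i (tt n) 1 = 1 := by
    apply Subtype.ext
    simp [acf, th_t]
  have h4 : w 1 = 0 := by
    have := hw 1 1
    rw [mul_one] at this
    linear_combination -this
  rw [h3] at h2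
  simp only [mu_map_one hw, h4] at h2
  linear_combination -h2

/-! ### finiteness -/

lemma finite_of_fg_torsion' {Q : Type*} [CommGroup Q] [Group.FG Q] {p : ℕ} (hp : 0 < p)
    (h : ∀ q : Q, q ^ p = 1) : Finite Q := by
  apply CommGroup.finite_of_fg_isMulTorsion
  intro q
  exact isOfFinOrder_iff_pow_eq_one.2 ⟨p, hp, h q⟩

lemma finite_of_fg_torsion'' {Q : Type*} [Group Q] [Group.FG Q] (hc : ∀ a b : Q, a * b = b * a)
    {p : ℕ} (hp : 0 < p) (h : ∀ q : Q, q ^ p = 1) : Finite Q :=
  @finite_of_fg_torsion' Q { (inferInstance : Group Q) with mul_comm := hc }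
    (by assumption) p hp h

lemma fin_step {G : Type*} [Group G] [Group.FG G] (N₁ N₂ : Subgroup G) [N₁.Normal] [N₂.Normal]
    (h12 : N₁ ≤ N₂) (hfi : N₂.FiniteIndex) (hcomm : ∀ a ∈ N₂, ∀ b ∈ N₂, a * b * a⁻¹ * b⁻¹ ∈ N₁)
    {p : ℕ} (hp : 0 < p) (hpow : ∀ a ∈ N₂, a ^ p ∈ N₁) : N₁.FiniteIndex := by
  have hfg : Group.FG N₂ := Subgroup.fg_of_index_ne_zero N₂
  have hQ : Finite (N₂ ⧸ N₁.subgroupOf N₂) := by
    apply finite_of_fg_torsion'' (p := p) _ hp
    · intro q
      induction q using QuotientGroup.induction_on with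
      | H a =>
        rw [← QuotientGroup.mk_pow, QuotientGroup.eq_one_iff, Subgroup.mem_subgroupOf]
        exact hpow a a.2
    · intro a b
      induction a using QuotientGroup.induction_on with
      | H a =>
        induction b using QuotientGroup.induction_on with
        | H b =>
          have h1 : (QuotientGroup.mk (a * b * a⁻¹ * b⁻¹) : N₂ ⧸ N₁.subgroupOf N₂) = 1 := by
            rw [QuotientGroup.eq_one_iff, Subgroup.mem_subgroupOf]
            exact hcomm a a.2 b b.2
          simp only [QuotientGroup.mk_mul, QuotientGroup.mk_inv] at h1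
          rw [mul_inv_eq_one, mul_inv_eq_iff_eq_mul] at h1
          exact h1
  have h1 : (N₁.subgroupOf N₂).FiniteIndex := Subgroup.finiteIndex_of_finite_quotient
  have h2 : N₁.relIndex N₂ ≠ 0 := h1.index_ne_zero
  constructor
  rw [← Subgroup.relIndex_mul_index h12]
  exact mul_ne_zero h2 hfi.index_ne_zero

/-- `R` together with some of the `K_i`. -/
def LL (p : ℕ) {n : ℕ} : List (Fin n) → Subgroup (FF n)
  | [] => RR p n
  | i :: l => LL p l ⊔ KK i

lemma LL_normal (p : ℕ) {n : ℕ} (l : List (Fin n)) : (LL p l).Normal := by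
  induction l with
  | nil => exact (inferInstance : (RR p n).Normal)
  | cons i l ih =>
    have := ih
    exact Subgroup.sup_normal _ _

lemma RR_le_LL (p : ℕ) {n : ℕ} (l : List (Fin n)) : RR p n ≤ LL p l := by
  induction l with
  | nil => exact le_rfl
  | cons i l ih => exact ih.trans le_sup_left

lemma KK_le_LL (p : ℕ) {n : ℕ} (l : List (Fin n)) (i : Fin n) (hi : i ∈ l) : KK i ≤ LL p l := by
  induction l with
  | nil => simp at hi
  | cons j l ih =>
    rcases List.mem_cons.1 hi with h | h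
    · subst h; exact le_sup_right
    · exact (ih h).trans le_sup_left

lemma KB_le_LL (p : ℕ) {n : ℕ} : KB n ≤ LL p (List.finRange n) := by
  have := LL_normal p (List.finRange n)
  apply normalClosure_le_normal
  rintro _ ⟨j, rfl⟩
  exact KK_le_LL p _ j (List.mem_finRange j) (xx_mem j)

/-- good subgroups: finite index and `p`-power quotient. -/
def Good (p : ℕ) {G : Type*} [Group G] (N : Subgroup G) : Prop :=
  N.FiniteIndex ∧ ∀ g : G, ∃ m : ℕ, g ^ (p ^ m) ∈ N

lemma good_step {p : ℕ} (hp : 0 < p) {G : Type*} [Group G] [Group.FG G] (N₁ N₂ : Subgroup G)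
    (h1 : N₁.Normal) (h2 : N₂.Normal)
    (h12 : N₁ ≤ N₂) (hg : Good p N₂) (hcomm : ∀ a ∈ N₂, ∀ b ∈ N₂, a * b * a⁻¹ * b⁻¹ ∈ N₁)
    (hpow : ∀ a ∈ N₂, a ^ p ∈ N₁) : Good p N₁ := by
  refine ⟨fin_step N₁ N₂ h12 hg.1 hcomm hp hpow, fun g => ?_⟩
  obtain ⟨m, hm⟩ := hg.2 g
  refine ⟨m + 1, ?_⟩
  rw [pow_succ, pow_mul]
  exact hpow _ hm

lemma th_univ_mem {n : ℕ} (f : FF n) : th Finset.univ f ∈ Subgroup.zpowers (tt n) := by
  induction f using FreeGroup.induction_on with
  | C1 => simp
  | of o =>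
    cases o with
    | none =>
      show th Finset.univ (tt n) ∈ _
      rw [th_t]; exact Subgroup.mem_zpowers _
    | some j =>
      show th Finset.univ (xx j) ∈ _
      rw [th_x]; simp
  | inv_of o ih => rw [map_inv]; exact inv_mem ih
  | mul f g ihf ihg => rw [map_mul]; exact mul_mem ihf ihg

lemma mul_th_univ_mem {n : ℕ} (u : FF n) : u * (th Finset.univ u)⁻¹ ∈ KB n := by
  have : (QuotientGroup.mk' (KB n)) = (QuotientGroup.mk' (KB n)).comp (th Finset.univ) := by
    ext o
    cases o with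
    | none =>
      show (QuotientGroup.mk' (KB n)) (tt n) = (QuotientGroup.mk' (KB n)) (th Finset.univ (tt n))
      rw [th_t]
    | some j =>
      show (QuotientGroup.mk' (KB n)) (xx j) = (QuotientGroup.mk' (KB n)) (th Finset.univ (xx j))
      rw [th_x]
      simp only [Finset.mem_univ, if_true, map_one]
      exact (QuotientGroup.eq_one_iff _).2 (KK_le j (xx_mem j))
  have h := DFunLike.congr_fun this u
  simp only [MonoidHom.comp_apply, QuotientGroup.mk'_apply] at h
  rw [← QuotientGroup.eq_one_iff, QuotientGroup.mk_mul, QuotientGroup.mk_inv, ← h, mul_inv_cancel]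

lemma good_base {p n : ℕ} (hp : 0 < p) : Good p (LL p (List.finRange n)) := by
  set N := LL p (List.finRange n) with hN
  have hNn : N.Normal := LL_normal p _
  have hKB : KB n ≤ N := KB_le_LL p
  have hRR : RR p n ≤ N := RR_le_LL p _
  have hth : ∀ u : FF n, (QuotientGroup.mk u : FF n ⧸ N) = QuotientGroup.mk (th Finset.univ u) := by
    intro u
    rw [← mul_inv_eq_one, ← QuotientGroup.mk_inv, ← QuotientGroup.mk_mul,
      QuotientGroup.eq_one_iff]
    exact hKB (mul_th_univ_mem u)
  refine good_step hp N ⊤ hNn inferInstance le_top ⟨inferInstance, fun g => ⟨0, mem_top _⟩⟩ ?_ ?_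
  · intro a _ b _
    rw [← QuotientGroup.eq_one_iff, hth]
    have h1 : th Finset.univ (a * b * a⁻¹ * b⁻¹) = 1 := by
      obtain ⟨k, hk⟩ := Subgroup.mem_zpowers_iff.1 (th_univ_mem a)
      obtain ⟨l, hl⟩ := Subgroup.mem_zpowers_iff.1 (th_univ_mem b)
      rw [map_mul, map_mul, map_mul, map_inv, map_inv, ← hk, ← hl]
      group
    rw [h1]; rfl
  · intro a _
    rw [← QuotientGroup.eq_one_iff, hth, QuotientGroup.eq_one_iff, map_pow]
    obtain ⟨k, hk⟩ := Subgroup.mem_zpowers_iff.1 (th_univ_mem a)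
    rw [← hk, ← zpow_natCast, ← zpow_mul, mul_comm, zpow_mul]
    exact zpow_mem (by rw [zpow_natCast]; exact hRR tpow_mem_RR) _

lemma good_LL {p n : ℕ} (hp : 0 < p) (l : List (Fin n)) (h : Good p (LL p l)) :
    Good p (RR p n) := by
  induction l with
  | nil => exact h
  | cons i l ih =>
    apply ih
    have hn1 := LL_normal p l
    have hn2 := LL_normal p (i :: l)
    have hquot : ∀ a ∈ LL p (i :: l), ∃ k ∈ KK i,
        (QuotientGroup.mk a : FF n ⧸ LL p l) = QuotientGroup.mk k := by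
      intro a ha
      have ha' : a ∈ LL p l ⊔ KK i := ha
      obtain ⟨x, hx, k, hk, rfl⟩ := Subgroup.mem_sup_of_normal_right.1 ha'
      refine ⟨k, hk, ?_⟩
      rw [QuotientGroup.mk_mul, (QuotientGroup.eq_one_iff x).2 hx, one_mul]
    refine good_step hp (LL p l) (LL p (i :: l)) hn1 hn2 le_sup_left h ?_ ?_
    · intro a ha b hb
      obtain ⟨k, hk, hk'⟩ := hquot a ha
      obtain ⟨k2, hk2, hk2'⟩ := hquot b hb
      rw [← QuotientGroup.eq_one_iff]
      simp only [QuotientGroup.mk_mul, QuotientGroup.mk_inv]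
      rw [hk', hk2']
      simp only [← QuotientGroup.mk_mul, ← QuotientGroup.mk_inv]
      rw [QuotientGroup.eq_one_iff]
      exact RR_le_LL p l (comm_mem_RR hk hk2)
    · intro a ha
      obtain ⟨k, hk, hk'⟩ := hquot a ha
      rw [← QuotientGroup.eq_one_iff, QuotientGroup.mk_pow, hk', ← QuotientGroup.mk_pow,
        QuotientGroup.eq_one_iff]
      exact RR_le_LL p l (KK_pow i hk)

lemma comm_mem_SS {p n : ℕ} {r : FF n} (hr : r ∈ RR p n) (f : FF n) :
    r * f * r⁻¹ * f⁻¹ ∈ SS p n := subset_normalClosure (Or.inl ⟨r, hr, f, rfl⟩)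

lemma SS_le_RR {p n : ℕ} : SS p n ≤ RR p n := by
  apply normalClosure_le_normal
  rintro g (⟨r, hr, f, rfl⟩ | ⟨r, hr, rfl⟩)
  · have := mul_mem hr ((inferInstance : (RR p n).Normal).conj_mem _ (inv_mem hr) f)
    simpa [mul_assoc] using this
  · exact pow_mem hr _

lemma good_SS {p n : ℕ} (hp : 0 < p) : Good p (SS p n) := by
  refine good_step hp (SS p n) (RR p n) inferInstance inferInstance SS_le_RR
    (good_LL hp _ (good_base hp)) ?_ ?_
  · intro a ha b _
    exact comm_mem_SS ha b
  · intro a ha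
    exact subset_normalClosure (Or.inr ⟨a, ha, rfl⟩)

/-- The main construction: a finite `p`-group with an automorphism whose `p`-th power is trivial,
with central fixed points, mapping onto a given group of exponent `p` generated by elements
with abelian normal closures. -/
theorem core (p : ℕ) [hpf : Fact p.Prime] (P : Type) [Group P] (n : ℕ) (y : Fin n → P)
    (hexp : ∀ g : P, g ^ p = 1)
    (hab : ∀ i, ∀ a ∈ normalClosure {y i}, ∀ b ∈ normalClosure {y i}, a * b = b * a)
    (hgen : closure (Set.range y) = ⊤) :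
    ∃ (G : Type) (_ : Group G) (_ : Finite G) (φ : MulAut G), Group.IsSolvable G ∧ φ ^ p = 1 ∧
      (∀ g, φ g = g → g ∈ center G) ∧ ∃ f : G →* P, Function.Surjective f := by
  have hp : 0 < p := hpf.out.pos
  obtain ⟨hfi, hpp⟩ := good_SS (p := p) (n := n) hp
  have := hfi
  let Gt := FF n ⧸ SS p n
  have hfin : Finite Gt := Subgroup.finite_quotient_of_finiteIndex
  let q : FF n →* Gt := QuotientGroup.mk' (SS p n)
  have hq : Function.Surjective q := QuotientGroup.mk'_surjective _
  let G : Subgroup Gt := (KB n).map q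
  have hGn : G.Normal := (inferInstance : (KB n).Normal).map q hq
  have hcen : ∀ r ∈ RR p n, ∀ g : Gt, q r * g = g * q r := by
    intro r hr g
    obtain ⟨f, rfl⟩ := hq g
    have h1 : q (r * f * r⁻¹ * f⁻¹) = 1 := (QuotientGroup.eq_one_iff _).2 (comm_mem_SS hr f)
    rw [map_mul, map_mul, map_mul, map_inv, map_inv, mul_inv_eq_one, mul_inv_eq_iff_eq_mul] at h1
    exact h1
  let φ : MulAut G := MulAut.conjNormal (q (tt n))
  have hpG : IsPGroup p G := by
    intro g
    obtain ⟨f, hf⟩ := hq (g : Gt)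
    obtain ⟨m, hm⟩ := hpp f
    refine ⟨m, Subtype.ext ?_⟩
    rw [Subgroup.coe_pow, ← hf, ← map_pow, Subgroup.coe_one]
    exact (QuotientGroup.eq_one_iff _).2 hm
  have : Group.IsNilpotent G := hpG.isNilpotent
  refine ⟨G, inferInstance, inferInstance, φ, inferInstance, ?_, ?_, ?_⟩
  · show (MulAut.conjNormal (q (tt n)) : MulAut G) ^ p = 1
    rw [← map_pow, ← map_pow]
    ext g
    rw [MulAut.conjNormal_apply, MulAut.one_apply, hcen _ tpow_mem_RR, mul_inv_cancel_right]
  · intro g hg
    obtain ⟨u, hu, hug⟩ := g.2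
    have h1 : q (tt n) * g * (q (tt n))⁻¹ = (g : Gt) := by
      have := congrArg Subtype.val hg
      rwa [MulAut.conjNormal_apply] at this
    rw [← hug] at h1
    have h2 : u * tt n * u⁻¹ * (tt n)⁻¹ ∈ SS p n := by
      rw [← QuotientGroup.eq_one_iff]
      show q (u * tt n * u⁻¹ * (tt n)⁻¹) = 1
      rw [map_mul, map_mul, map_mul, map_inv, map_inv, mul_inv_eq_one, mul_inv_eq_iff_eq_mul]
      exact (mul_inv_eq_iff_eq_mul.1 h1).symm
    have h3 := key u hu h2
    rw [Subgroup.mem_center_iff]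
    intro k
    apply Subtype.ext
    rw [Subgroup.coe_mul, Subgroup.coe_mul, ← hug]
    exact (hcen u h3 k).symm
  · let f0 : FF n →* P := FreeGroup.lift (fun o => match o with
      | none => 1
      | some i => y i)
    have f0t : f0 (tt n) = 1 := by simp [f0, tt]
    have f0x : ∀ i, f0 (xx i) = y i := by intro i; simp [f0, xx]
    have hRR : RR p n ≤ f0.ker := by
      apply normalClosure_le_normal
      have hK : ∀ i, ∀ a ∈ KK i, f0 a ∈ normalClosure {y i} := by
        intro i a ha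
        have : KK i ≤ (normalClosure {y i}).comap f0 := by
          apply normalClosure_le_normal
          rintro _ rfl
          rw [SetLike.mem_coe, Subgroup.mem_comap, f0x]
          exact subset_normalClosure rfl
        exact this ha
      rintro g ((⟨i, a, ha, b, hb, rfl⟩ | ⟨h, hh, rfl⟩) | ⟨i, rfl⟩)
      · show f0 _ = 1
        rw [map_mul, map_mul, map_mul, map_inv, map_inv, mul_inv_eq_one, mul_inv_eq_iff_eq_mul]
        exact hab i _ (hK i a ha) _ (hK i b hb)
      · show f0 _ = 1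
        rw [map_pow, hexp]
      · show f0 _ = 1
        rw [map_pow, hexp]
    let f1 : Gt →* P := QuotientGroup.lift (SS p n) f0 (fun a ha => hRR (SS_le_RR ha))
    have f1q : ∀ a, f1 (q a) = f0 a := fun a => rfl
    refine ⟨f1.comp G.subtype, ?_⟩
    rw [← MonoidHom.range_eq_top, eq_top_iff, ← hgen, closure_le]
    rintro _ ⟨i, rfl⟩
    exact ⟨⟨q (xx i), ⟨xx i, KK_le i (xx_mem i), rfl⟩⟩, by
      show f1 (q (xx i)) = y i
      rw [f1q, f0x]⟩

end Pool.Agent.CentralAut
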