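import Mathlib

set_option autoImplicit false
set_option linter.unusedSimpArgs false
set_option linter.unusedVariables false

namespace Pool.Agent.CentralAut.E5

open MvPolynomial

/-- the coefficient ring. -/
abbrev AA := MvPolynomial (ℕ × Fin 3) (ZMod 5)

/-- two by two matrices. -/
abbrev MM := Matrix (Fin 2) (Fin 2) AA

/-- the generic traceless matrix. -/
noncomputable def YY (j : ℕ) : MM := !![X (j, 0), X (j, 1); X (j, 2), -X (j, 0)]

lemma five_eq : (5 : AA) = 0 := by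
  have : ((5 : ℕ) : AA) = 0 := by
    exact CharP.cast_eq_zero AA 5
  exact_mod_cast this

/-- the substitution `Y_j ↦ u⁻¹ Y_j u`. -/
noncomputable def sg5 : AA →ₐ[ZMod 5] AA :=
  aeval (fun v => if v.2 = 0 then X (v.1, 0) - X (v.1, 2)
    else if v.2 = 1 then X (v.1, 1) + 2 * X (v.1, 0) - X (v.1, 2) else X (v.1, 2))

lemma sg5_X0 (j : ℕ) : sg5 (X (j, 0)) = X (j, 0) - X (j, 2) := by simp [sg5]
lemma sg5_X1 (j : ℕ) : sg5 (X (j, 1)) = X (j, 1) + 2 * X (j, 0) - X (j, 2) := by simp [sg5]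
lemma sg5_X2 (j : ℕ) : sg5 (X (j, 2)) = X (j, 2) := by simp [sg5]

lemma mm_ext {F G : MM} (h00 : F 0 0 = G 0 0) (h01 : F 0 1 = G 0 1) (h10 : F 1 0 = G 1 0)
    (h11 : F 1 1 = G 1 1) : F = G := by
  apply Matrix.ext
  intro i j
  fin_cases i <;> fin_cases j
  · exact h00
  · exact h01
  · exact h10
  · exact h11

lemma mul00 (F G : MM) : (F * G) 0 0 = F 0 0 * G 0 0 + F 0 1 * G 1 0 := by
  rw [Matrix.mul_apply, Fin.sum_univ_two]
lemma mul01 (F G : MM) : (F * G) 0 1 = F 0 0 * G 0 1 + F 0 1 * G 1 1 := by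
  rw [Matrix.mul_apply, Fin.sum_univ_two]
lemma mul10 (F G : MM) : (F * G) 1 0 = F 1 0 * G 0 0 + F 1 1 * G 1 0 := by
  rw [Matrix.mul_apply, Fin.sum_univ_two]
lemma mul11 (F G : MM) : (F * G) 1 1 = F 1 0 * G 0 1 + F 1 1 * G 1 1 := by
  rw [Matrix.mul_apply, Fin.sum_univ_two]

lemma one00 : (1 : MM) 0 0 = 1 := rfl
lemma one11 : (1 : MM) 1 1 = 1 := rfl
lemma one01 : (1 : MM) 0 1 = 0 := rfl
lemma one10 : (1 : MM) 1 0 = 0 := rfl

/-- the twisted automorphism of the matrix ring. -/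
noncomputable def SigF (F : MM) : MM :=
  !![sg5 (F 0 0) + sg5 (F 1 0),
    sg5 (F 0 1) + sg5 (F 1 1) - sg5 (F 0 0) - sg5 (F 1 0);
    sg5 (F 1 0), sg5 (F 1 1) - sg5 (F 1 0)]

lemma SigF00 (F : MM) : SigF F 0 0 = sg5 (F 0 0) + sg5 (F 1 0) := rfl
lemma SigF01 (F : MM) : SigF F 0 1 = sg5 (F 0 1) + sg5 (F 1 1) - sg5 (F 0 0) - sg5 (F 1 0) := rfl
lemma SigF10 (F : MM) : SigF F 1 0 = sg5 (F 1 0) := rfl
lemma SigF11 (F : MM) : SigF F 1 1 = sg5 (F 1 1) - sg5 (F 1 0) := rfl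

/-- the twisted automorphism of the matrix ring. -/
noncomputable def Sig : MM →+* MM where
  toFun := SigF
  map_one' := by
    apply mm_ext
    · rw [SigF00, one00, one10, map_one, map_zero, add_zero]
    · rw [SigF01, one00, one10, one01, one11, map_one, map_zero]; ring
    · rw [SigF10, one10, map_zero]
    · rw [SigF11, one10, one11, map_one, map_zero, sub_zero]
  map_mul' F G := by
    apply mm_ext
    · simp only [SigF00, SigF01, SigF10, SigF11, mul00, mul01, mul10, mul11, map_add, map_mul]; ring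
    · simp only [SigF00, SigF01, SigF10, SigF11, mul00, mul01, mul10, mul11, map_add, map_mul]; ring
    · simp only [SigF00, SigF01, SigF10, SigF11, mul00, mul01, mul10, mul11, map_add, map_mul]; ring
    · simp only [SigF00, SigF01, SigF10, SigF11, mul00, mul01, mul10, mul11, map_add, map_mul]; ring
  map_zero' := by
    apply mm_ext
    · simp only [SigF00, SigF01, SigF10, SigF11, Matrix.zero_apply, map_zero]; ring
    · simp only [SigF00, SigF01, SigF10, SigF11, Matrix.zero_apply, map_zero]; ring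
    · simp only [SigF00, SigF01, SigF10, SigF11, Matrix.zero_apply, map_zero]
    · simp only [SigF00, SigF01, SigF10, SigF11, Matrix.zero_apply, map_zero]; ring
  map_add' F G := by
    apply mm_ext
    · simp only [SigF00, SigF01, SigF10, SigF11, Matrix.add_apply, map_add]; ring
    · simp only [SigF00, SigF01, SigF10, SigF11, Matrix.add_apply, map_add]; ring
    · simp only [SigF00, SigF01, SigF10, SigF11, Matrix.add_apply, map_add]
    · simp only [SigF00, SigF01, SigF10, SigF11, Matrix.add_apply, map_add]; ring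

lemma Sig00 (F : MM) : Sig F 0 0 = sg5 (F 0 0) + sg5 (F 1 0) := rfl
lemma Sig01 (F : MM) : Sig F 0 1 = sg5 (F 0 1) + sg5 (F 1 1) - sg5 (F 0 0) - sg5 (F 1 0) := rfl
lemma Sig10 (F : MM) : Sig F 1 0 = sg5 (F 1 0) := rfl
lemma Sig11 (F : MM) : Sig F 1 1 = sg5 (F 1 1) - sg5 (F 1 0) := rfl

lemma YY00 (j : ℕ) : YY j 0 0 = X (j, 0) := rfl
lemma YY01 (j : ℕ) : YY j 0 1 = X (j, 1) := rfl
lemma YY10 (j : ℕ) : YY j 1 0 = X (j, 2) := rfl
lemma YY11 (j : ℕ) : YY j 1 1 = -X (j, 0) := rfl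

lemma Sig_YY (j : ℕ) : Sig (YY j) = YY j := by
  apply mm_ext
  · simp only [Sig00, YY00, YY10, sg5_X0, sg5_X2]; ring
  · simp only [Sig01, YY00, YY01, YY10, YY11, sg5_X0, sg5_X2, sg5_X1, map_neg]; ring
  · simp only [Sig10, YY10, sg5_X2]
  · simp only [Sig11, YY11, YY10, sg5_X0, sg5_X2, map_neg]; ring

/-- the trace (norm) map of the twisted action. -/
noncomputable def Tr (F : MM) : MM :=
  F + Sig F + Sig (Sig F) + Sig (Sig (Sig F)) + Sig (Sig (Sig (Sig F)))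

/-- the cubic map. -/
noncomputable def F3 (q a b : AA) : MM := !![q * a ^ 3, 0; q * (3 * b ^ 3), - (q * a ^ 3)]

lemma F300 (q a b : AA) : F3 q a b 0 0 = q * a ^ 3 := rfl
lemma F301 (q a b : AA) : F3 q a b 0 1 = 0 := rfl
lemma F310 (q a b : AA) : F3 q a b 1 0 = q * (3 * b ^ 3) := rfl
lemma F311 (q a b : AA) : F3 q a b 1 1 = - (q * a ^ 3) := rfl

/-- Key identity: `q² Y` is a trace. -/
lemma trace_identity (a b c : AA) (ha : sg5 a = a - c) (hb : sg5 b = b + 2 * a - c)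
    (hc : sg5 c = c) :
    Tr (F3 (a ^ 2 + b * c) a b) = ((a ^ 2 + b * c) ^ 2) • (!![a, b; c, -a] : MM) := by
  have h5 := five_eq
  have hq : sg5 (a ^ 2 + b * c) = a ^ 2 + b * c := by
    rw [map_add, map_pow, map_mul, ha, hb, hc]; ring
  have e1 : sg5 3 = 3 := map_ofNat sg5 3
  have e2 : sg5 2 = 2 := map_ofNat sg5 2
  unfold Tr
  apply mm_ext
  · rw [Matrix.smul_apply, smul_eq_mul]
    rw [show (!![a, b; c, -a] : MM) 0 0 = a from rfl]
    simp only [Matrix.add_apply, Sig00, Sig01, Sig10, Sig11, F300, F301, F310, F311,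
      map_mul, map_pow, map_add, map_sub, map_neg, hq, ha, hb, hc, e1, e2, map_zero]
    linear_combination ((1700)*a^5 + (720)*a^4*b^1 + (-9366)*a^4*c^1 + (108)*a^3*b^2 + (-849)*a^3*b^1*c^1 + (17622)*a^3*c^2 + (6)*a^2*b^3 + (540)*a^2*b^2*c^1 + (-7026)*a^2*b^1*c^2 + (-11240)*a^2*c^3 + (108)*a^1*b^3*c^1 + (-2549)*a^1*b^2*c^2 + (17622)*a^1*b^1*c^3 + (6)*b^4*c^1 + (-180)*b^3*c^2 + (2340)*b^2*c^3 + (-11240)*b^1*c^4) * h5
  · rw [Matrix.smul_apply, smul_eq_mul]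
    rw [show (!![a, b; c, -a] : MM) 0 1 = b from rfl]
    simp only [Matrix.add_apply, Sig00, Sig01, Sig10, Sig11, F300, F301, F310, F311,
      map_mul, map_pow, map_add, map_sub, map_neg, hq, ha, hb, hc, e1, e2, map_zero]
    linear_combination ((-6244)*a^5 + (-2549)*a^4*b^1 + (35244)*a^4*c^1 + (-360)*a^3*b^2 + (3116)*a^3*b^1*c^1 + (-67440)*a^3*c^2 + (-18)*a^2*b^3 + (-1912)*a^2*b^2*c^1 + (26442)*a^2*b^1*c^2 + (43554)*a^2*c^3 + (-360)*a^1*b^3*c^1 + (9360)*a^1*b^2*c^2 + (-67440)*a^1*b^1*c^3 + (-18)*b^4*c^1 + (637)*b^3*c^2 + (-8802)*b^2*c^3 + (43554)*b^1*c^4) * h5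
  · rw [Matrix.smul_apply, smul_eq_mul]
    rw [show (!![a, b; c, -a] : MM) 1 0 = c from rfl]
    simp only [Matrix.add_apply, Sig00, Sig01, Sig10, Sig11, F300, F301, F310, F311,
      map_mul, map_pow, map_add, map_sub, map_neg, hq, ha, hb, hc, e1, e2, map_zero]
    linear_combination ((480)*a^5 + (216)*a^4*b^1 + (-2549)*a^4*c^1 + (36)*a^3*b^2 + (-240)*a^3*b^1*c^1 + (4680)*a^3*c^2 + (3)*a^2*b^3 + (162)*a^2*b^2*c^1 + (-1912)*a^2*b^1*c^2 + (-2934)*a^2*c^3 + (36)*a^1*b^3*c^1 + (-720)*a^1*b^2*c^2 + (4680)*a^1*b^1*c^3 + (3)*b^4*c^1 + (-54)*b^3*c^2 + (637)*b^2*c^3 + (-2934)*b^1*c^4) * h5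
  · rw [Matrix.smul_apply, smul_eq_mul]
    rw [show (!![a, b; c, -a] : MM) 1 1 = -a from rfl]
    simp only [Matrix.add_apply, Sig00, Sig01, Sig10, Sig11, F300, F301, F310, F311,
      map_mul, map_pow, map_add, map_sub, map_neg, hq, ha, hb, hc, e1, e2, map_zero]
    linear_combination ((-1700)*a^5 + (-720)*a^4*b^1 + (9366)*a^4*c^1 + (-108)*a^3*b^2 + (849)*a^3*b^1*c^1 + (-17622)*a^3*c^2 + (-6)*a^2*b^3 + (-540)*a^2*b^2*c^1 + (7026)*a^2*b^1*c^2 + (11240)*a^2*c^3 + (-108)*a^1*b^3*c^1 + (2549)*a^1*b^2*c^2 + (-17622)*a^1*b^1*c^3 + (-6)*b^4*c^1 + (180)*b^3*c^2 + (-2340)*b^2*c^3 + (11240)*b^1*c^4) * h5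

end Pool.Agent.CentralAut.E5
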