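import Pool.Agent.CentralAut.Exp5A

set_option autoImplicit false
set_option linter.unusedSimpArgs false
set_option linter.unusedVariables false

namespace Pool.Agent.CentralAut.E5

open MvPolynomial

/-- formal derivative. -/
noncomputable abbrev pd (j : ℕ) (r : Fin 3) : Derivation (ZMod 5) AA AA := pderiv (j, r)

lemma pd_X (i j : ℕ) (r s : Fin 3) : pd j r (X (i, s)) = if i = j ∧ s = r then 1 else 0 := by
  rw [pderiv_X, Pi.single_apply]
  simp only [Prod.mk.injEq]

lemma pd_two (j : ℕ) (r : Fin 3) : pd j r 2 = 0 := by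
  rw [show (2 : AA) = C 2 from (map_ofNat C 2).symm, pderiv_C]

lemma pd_sgX_ne (i j : ℕ) (h : i ≠ j) (r s : Fin 3) : pd j r (sg5 (X (i, s))) = 0 := by
  fin_cases s
  · simp only [Fin.zero_eta, sg5_X0, map_sub, pd_X, h, false_and, if_false, sub_zero]
  · simp only [Fin.mk_one, sg5_X1, map_sub, map_add, Derivation.leibniz, pd_X, h, false_and, if_false, 
      sub_zero, smul_zero, zero_add, pd_two]
  · simp only [Fin.reduceFinMk, sg5_X2, pd_X, h, false_and, if_false]

lemma pd_sg (j : ℕ) (r : Fin 3) (f : AA) : pd j r (sg5 f) =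
    sg5 (pd j 0 f) * pd j r (sg5 (X (j, 0))) + sg5 (pd j 1 f) * pd j r (sg5 (X (j, 1)))
      + sg5 (pd j 2 f) * pd j r (sg5 (X (j, 2))) := by
  induction f using MvPolynomial.induction_on with
  | C a =>
    rw [show sg5 (C a) = C a from sg5.commutes a]
    simp only [pderiv_C, map_zero]; ring
  | add p q hp hq => rw [map_add, map_add, hp, hq]; simp only [map_add]; ring
  | mul_X p w hp =>
    obtain ⟨i, s⟩ := w
    rw [map_mul, Derivation.leibniz, hp]
    simp only [Derivation.leibniz, map_add, map_mul, smul_eq_mul, pd_X]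
    by_cases h : i = j
    · subst h
      fin_cases s
      · simp; ring
      · simp; ring
      · simp; ring
    · rw [pd_sgX_ne i j h]
      simp only [h, false_and, if_false, map_zero]
      ring

lemma pd0_sg (j : ℕ) (f : AA) : pd j 0 (sg5 f) = sg5 (pd j 0 f) + 2 * sg5 (pd j 1 f) := by
  rw [pd_sg, sg5_X0, sg5_X1, sg5_X2]
  simp only [map_sub, map_add, Derivation.leibniz, pd_X, pd_two, smul_eq_mul]
  simp; ring

lemma pd1_sg (j : ℕ) (f : AA) : pd j 1 (sg5 f) = sg5 (pd j 1 f) := by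
  rw [pd_sg, sg5_X0, sg5_X1, sg5_X2]
  simp only [map_sub, map_add, Derivation.leibniz, pd_X, pd_two, smul_eq_mul]
  simp

lemma pd2_sg (j : ℕ) (f : AA) : pd j 2 (sg5 f) =
    - sg5 (pd j 0 f) - sg5 (pd j 1 f) + sg5 (pd j 2 f) := by
  rw [pd_sg, sg5_X0, sg5_X1, sg5_X2]
  simp only [map_sub, map_add, Derivation.leibniz, pd_X, pd_two, smul_eq_mul]
  simp; ring

/-- invariant contraction. -/
noncomputable def Lap (i j : ℕ) : AA →+ AA where
  toFun f := 3 * pd i 0 (pd j 0 f) + pd i 1 (pd j 2 f) + pd i 2 (pd j 1 f)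
  map_zero' := by simp only [map_zero]; ring
  map_add' f g := by simp only [map_add]; ring

lemma Lap_apply (i j : ℕ) (f : AA) :
    Lap i j f = 3 * pd i 0 (pd j 0 f) + pd i 1 (pd j 2 f) + pd i 2 (pd j 1 f) := rfl

lemma Lap_sg (i j : ℕ) (f : AA) : Lap i j (sg5 f) = sg5 (Lap i j f) := by
  have h3 : sg5 3 = 3 := map_ofNat sg5 3
  rw [Lap_apply, Lap_apply]
  simp only [pd0_sg, pd1_sg, pd2_sg, map_add, map_sub, map_neg, map_mul, h3, Derivation.leibniz, pd_two,
    smul_eq_mul]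
  linear_combination (sg5 (pd i 1 (pd j 0 f)) + sg5 (pd i 0 (pd j 1 f)) 
    + 2 * sg5 (pd i 1 (pd j 1 f))) * five_eq

/-- iterated contraction. -/
noncomputable def Cop : ℕ → ℕ → (AA →+ AA)
  | 0, _ => AddMonoidHom.id AA
  | d + 1, m => (Lap (m + 3 ^ d) (m + 2 * 3 ^ d)).comp
      ((Cop d m).comp ((Cop d (m + 3 ^ d)).comp (Cop d (m + 2 * 3 ^ d))))

lemma Cop_zero (m : ℕ) (f : AA) : Cop 0 m f = f := rfl

lemma Cop_succ (d m : ℕ) (f : AA) : Cop (d + 1) m f =
    Lap (m + 3 ^ d) (m + 2 * 3 ^ d)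
      (Cop d m (Cop d (m + 3 ^ d) (Cop d (m + 2 * 3 ^ d) f))) := rfl

lemma Cop_sg (d : ℕ) : ∀ (m : ℕ) (f : AA), Cop d m (sg5 f) = sg5 (Cop d m f) := by
  induction d with
  | zero => intro m f; rfl
  | succ d ih =>
    intro m f
    rw [Cop_succ, Cop_succ, ih, ih, ih, Lap_sg]

/-- the entrywise application of an additive map. -/
noncomputable def ent (T : AA →+ AA) : MM →+ MM where
  toFun F := F.map T
  map_zero' := Matrix.map_zero _ (map_zero T)
  map_add' F G := Matrix.map_add _ (map_add T) F G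

lemma ent_apply (T : AA →+ AA) (F : MM) (i j : Fin 2) : ent T F i j = T (F i j) := rfl

lemma ent_Sig (T : AA →+ AA) (hT : ∀ f, T (sg5 f) = sg5 (T f)) (F : MM) :
    ent T (Sig F) = Sig (ent T F) := by
  apply mm_ext
  · simp only [ent_apply, Sig00, map_add, hT]
  · simp only [ent_apply, Sig01, map_add, map_sub, hT]
  · simp only [ent_apply, Sig10, map_add, hT]
  · simp only [ent_apply, Sig11, map_sub, hT]

/-- the divergence. -/
noncomputable def Dv : MM →+ AA where
  toFun F := 3 * pd 0 0 (F 0 0 - F 1 1) + pd 0 1 (F 0 1) + pd 0 2 (F 1 0)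
  map_zero' := by simp only [Matrix.zero_apply, sub_self, map_zero]; ring
  map_add' F G := by simp only [Matrix.add_apply, map_sub, map_add]; ring

lemma Dv_apply (F : MM) :
    Dv F = 3 * pd 0 0 (F 0 0 - F 1 1) + pd 0 1 (F 0 1) + pd 0 2 (F 1 0) := rfl

lemma Dv_Sig (F : MM) : Dv (Sig F) = sg5 (Dv F) := by
  have h3 : sg5 3 = 3 := map_ofNat sg5 3
  rw [Dv_apply, Dv_apply]
  simp only [Sig00, Sig01, Sig10, Sig11, pd0_sg, pd1_sg, pd2_sg, map_add, map_sub, map_neg, map_mul, h3]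
  linear_combination (sg5 (pd 0 1 (F 0 0)) - sg5 (pd 0 1 (F 1 1)) + sg5 (pd 0 0 (F 1 0)) 
    + 2 * sg5 (pd 0 1 (F 1 0))) * five_eq

lemma cC_sg (f : AA) : constantCoeff (sg5 f) = constantCoeff f := by
  induction f using MvPolynomial.induction_on with
  | C a => rw [show sg5 (C a) = C a from sg5.commutes a]
  | add p q hp hq => rw [map_add, map_add, hp, hq, map_add]
  | mul_X p w hp =>
    obtain ⟨i, s⟩ := w
    rw [map_mul, map_mul, map_mul, hp, constantCoeff_X]
    congr 1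
    fin_cases s
    · simp only [Fin.zero_eta, sg5_X0, map_sub, constantCoeff_X, sub_zero]
    · simp only [Fin.mk_one, sg5_X1, map_sub, map_add, map_mul, constantCoeff_X, sub_zero, mul_zero, add_zero]
    · simp only [Fin.reduceFinMk, sg5_X2, constantCoeff_X]

/-- the functional. -/
noncomputable def Lam (k : ℕ) : MM →+ ZMod 5 :=
  (constantCoeff : AA →+* ZMod 5).toAddMonoidHom.comp (Dv.comp (ent (Cop k 0)))

lemma Lam_apply (k : ℕ) (F : MM) : Lam k F = constantCoeff (Dv (ent (Cop k 0) F)) := rfl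

lemma Lam_Sig (k : ℕ) (F : MM) : Lam k (Sig F) = Lam k F := by
  rw [Lam_apply, Lam_apply, ent_Sig _ (Cop_sg k 0), Dv_Sig, cC_sg]

lemma Lam_Tr (k : ℕ) (F : MM) : Lam k (Tr F) = 0 := by
  have h5 : (5 : ZMod 5) = 0 := rfl
  unfold Tr
  simp only [map_add, Lam_Sig]
  linear_combination (Lam k F) * h5

/-- the ideal of the block. -/
noncomputable def II (j : ℕ) : Ideal AA := Ideal.span (Set.range fun r : Fin 3 => X (j, r))

lemma X_mem_II (j : ℕ) (r : Fin 3) : X (j, r) ∈ II j := Ideal.subset_span ⟨r, rfl⟩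

lemma pd_II {i j : ℕ} (h : i ≠ j) (r : Fin 3) {f : AA} (hf : f ∈ II j) : pd i r f ∈ II j := by
  unfold II at hf
  induction hf using Submodule.span_induction with
  | mem x hx =>
    obtain ⟨s, rfl⟩ := hx
    simp only [pd_X, Ne.symm h, false_and, if_false, Submodule.zero_mem]
  | zero => rw [map_zero]; exact zero_mem _
  | add x y _ _ hx hy => rw [map_add]; exact add_mem hx hy
  | smul a x hx' hx =>
    rw [smul_eq_mul, Derivation.leibniz]
    refine add_mem ?_ ?_
    · exact Ideal.mul_mem_left _ _ hx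
    · rw [smul_eq_mul]
      exact Ideal.mul_mem_right _ _ hx'

lemma pd_II2 {i j : ℕ} (h : i ≠ j) (r : Fin 3) {f : AA} (hf : f ∈ II j * II j) :
    pd i r f ∈ II j * II j := by
  induction hf using Submodule.mul_induction_on' with
  | mem_mul_mem a ha b hb =>
    rw [Derivation.leibniz]
    refine add_mem ?_ ?_
    · exact Ideal.mul_mem_mul ha (pd_II h r hb)
    · exact Ideal.mul_mem_mul hb (pd_II h r ha)
  | add x _ y _ hx hy => rw [map_add]; exact add_mem hx hy

lemma pd_II21 (i j : ℕ) (r : Fin 3) {f : AA} (hf : f ∈ II j * II j) :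
    pd i r f ∈ II j := by
  induction hf using Submodule.mul_induction_on' with
  | mem_mul_mem a ha b hb =>
    rw [Derivation.leibniz]
    refine add_mem ?_ ?_
    · exact Ideal.mul_mem_right _ _ ha
    · exact Ideal.mul_mem_right _ _ hb
  | add x _ y _ hx hy => rw [map_add]; exact add_mem hx hy

lemma Lap_II {i i' j : ℕ} (h : i ≠ j) (h' : i' ≠ j) {f : AA} (hf : f ∈ II j) : Lap i i' f ∈ II j := by
  rw [Lap_apply]
  refine add_mem (add_mem (Ideal.mul_mem_left _ _ ?_) ?_) ?_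
  · exact pd_II h _ (pd_II h' _ hf)
  · exact pd_II h _ (pd_II h' _ hf)
  · exact pd_II h _ (pd_II h' _ hf)

lemma Lap_II2 {i i' j : ℕ} (h : i ≠ j) (h' : i' ≠ j) {f : AA} (hf : f ∈ II j * II j) :
    Lap i i' f ∈ II j * II j := by
  rw [Lap_apply]
  refine add_mem (add_mem (Ideal.mul_mem_left _ _ ?_) ?_) ?_
  · exact pd_II2 h _ (pd_II2 h' _ hf)
  · exact pd_II2 h _ (pd_II2 h' _ hf)
  · exact pd_II2 h _ (pd_II2 h' _ hf)

lemma Lap_II21 {i i' j : ℕ} (h : i ≠ i') {f : AA} (hf : f ∈ II j * II j) :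
    Lap i i' f ∈ II j := by
  rw [Lap_apply]
  by_cases hi : i = j
  · have h' : i' ≠ j := fun h'' => h (hi.trans h''.symm)
    refine add_mem (add_mem (Ideal.mul_mem_left _ _ ?_) ?_) ?_
    · exact pd_II21 _ _ _ (pd_II2 h' _ hf)
    · exact pd_II21 _ _ _ (pd_II2 h' _ hf)
    · exact pd_II21 _ _ _ (pd_II2 h' _ hf)
  · refine add_mem (add_mem (Ideal.mul_mem_left _ _ ?_) ?_) ?_
    · exact pd_II hi _ (pd_II21 _ _ _ hf)
    · exact pd_II hi _ (pd_II21 _ _ _ hf)
    · exact pd_II hi _ (pd_II21 _ _ _ hf)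

lemma Cop_II (j d : ℕ) : ∀ m, (j ≤ m ∨ m + 3 ^ d ≤ j) → ∀ f ∈ II j, Cop d m f ∈ II j := by
  induction d with
  | zero => intro m _ f hf; exact hf
  | succ d ih =>
    intro m hm f hf
    have h3 : 0 < 3 ^ d := by positivity
    rw [pow_succ] at hm
    rw [Cop_succ]
    refine Lap_II (by omega) (by omega) ?_
    exact ih _ (by omega) _ (ih _ (by omega) _ (ih _ (by omega) _ hf))

lemma Cop_II2 (j d : ℕ) : ∀ m, (j ≤ m ∨ m + 3 ^ d ≤ j) → ∀ f ∈ II j * II j,
    Cop d m f ∈ II j * II j := by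
  induction d with
  | zero => intro m _ f hf; exact hf
  | succ d ih =>
    intro m hm f hf
    have h3 : 0 < 3 ^ d := by positivity
    rw [pow_succ] at hm
    rw [Cop_succ]
    refine Lap_II2 (by omega) (by omega) ?_
    exact ih _ (by omega) _ (ih _ (by omega) _ (ih _ (by omega) _ hf))

lemma Cop_II21 (j d : ℕ) : ∀ m, m < j → j < m + 3 ^ d → ∀ f ∈ II j * II j,
    Cop d m f ∈ II j := by
  induction d with
  | zero => intro m h1 h2 f hf; rw [pow_zero] at h2; omega
  | succ d ih =>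
    intro m h1 h2 f hf
    have h3 : 0 < 3 ^ d := by positivity
    rw [pow_succ] at h2
    rw [Cop_succ]
    by_cases ha : j = m + 3 ^ d
    · refine Lap_II21 (by omega) ?_
      exact Cop_II2 j d _ (by omega) _ (Cop_II2 j d _ (by omega) _ (Cop_II2 j d _ (by omega) _ hf))
    by_cases hb : j = m + 2 * 3 ^ d
    · refine Lap_II21 (by omega) ?_
      exact Cop_II2 j d _ (by omega) _ (Cop_II2 j d _ (by omega) _ (Cop_II2 j d _ (by omega) _ hf))
    refine Lap_II (by omega) (by omega) ?_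
    by_cases hc : j < m + 3 ^ d
    · exact ih _ (by omega) (by omega) _ (Cop_II2 j d _ (by omega) _ (Cop_II2 j d _ (by omega) _ hf))
    by_cases hd : j < m + 2 * 3 ^ d
    · exact Cop_II j d _ (by omega) _ (ih _ (by omega) (by omega) _ (Cop_II2 j d _ (by omega) _ hf))
    · exact Cop_II j d _ (by omega) _ (Cop_II j d _ (by omega) _ (ih _ (by omega) (by omega) _ hf))

lemma cC_II {j : ℕ} {f : AA} (hf : f ∈ II j) : constantCoeff f = 0 := by
  have h : II j ≤ RingHom.ker (constantCoeff : AA →+* ZMod 5) := by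
    unfold II
    rw [Ideal.span_le]
    rintro _ ⟨r, rfl⟩
    exact constantCoeff_X _ _
  exact h hf

lemma Lam_II2 (k j : ℕ) (hj : j < 3 ^ k) (F : MM) (hF : ∀ i i', F i i' ∈ II j * II j) :
    Lam k F = 0 := by
  rw [Lam_apply, Dv_apply]
  apply cC_II (j := j)
  simp only [ent_apply]
  rcases Nat.eq_zero_or_pos j with rfl | hpos
  · have h1 : ∀ i i', Cop k 0 (F i i') ∈ II 0 * II 0 := fun i i' =>
      Cop_II2 0 k 0 (Or.inl le_rfl) _ (hF i i')
    refine add_mem (add_mem (Ideal.mul_mem_left _ _ ?_) ?_) ?_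
    · exact pd_II21 _ _ _ (sub_mem (h1 _ _) (h1 _ _))
    · exact pd_II21 _ _ _ (h1 _ _)
    · exact pd_II21 _ _ _ (h1 _ _)
  · have h1 : ∀ i i', Cop k 0 (F i i') ∈ II j := fun i i' =>
      Cop_II21 j k 0 hpos (by omega) _ (hF i i')
    refine add_mem (add_mem (Ideal.mul_mem_left _ _ ?_) ?_) ?_
    · exact pd_II (by omega) _ (sub_mem (h1 _ _) (h1 _ _))
    · exact pd_II (by omega) _ (h1 _ _)
    · exact pd_II (by omega) _ (h1 _ _)

end Pool.Agent.CentralAut.E5
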