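import Pool.Agent.CentralAut.Exp5B

set_option autoImplicit false
set_option linter.unusedSimpArgs false
set_option linter.unusedVariables false

namespace Pool.Agent.CentralAut.E5

open MvPolynomial

/-- the iterated bracket. -/
noncomputable def gg : ℕ → ℕ → MM
  | 0, m => YY m
  | d + 1, m =>
      (gg d m * gg d (m + 3 ^ d) - gg d (m + 3 ^ d) * gg d m) * gg d (m + 2 * 3 ^ d)
        - gg d (m + 2 * 3 ^ d) * (gg d m * gg d (m + 3 ^ d) - gg d (m + 3 ^ d) * gg d m)

lemma gg_zero (m : ℕ) : gg 0 m = YY m := rfl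

lemma gg_succ (d m : ℕ) : gg (d + 1) m =
    (gg d m * gg d (m + 3 ^ d) - gg d (m + 3 ^ d) * gg d m) * gg d (m + 2 * 3 ^ d)
        - gg d (m + 2 * 3 ^ d) * (gg d m * gg d (m + 3 ^ d) - gg d (m + 3 ^ d) * gg d m) := rfl

/-- the entries of `F` do not involve variable `(j, r)`. -/
def Free (j : ℕ) (F : MM) : Prop := ∀ i i' r, pd j r (F i i') = 0

lemma Free.mul {j : ℕ} {F G : MM} (hF : Free j F) (hG : Free j G) : Free j (F * G) := by
  intro i i' r
  rw [Matrix.mul_apply, Fin.sum_univ_two, map_add, Derivation.leibniz, Derivation.leibniz,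
    hF, hF, hG, hG]
  simp only [smul_zero, add_zero]

lemma Free.sub {j : ℕ} {F G : MM} (hF : Free j F) (hG : Free j G) : Free j (F - G) := by
  intro i i' r
  rw [Matrix.sub_apply, map_sub, hF, hG, sub_zero]

lemma Free.YY {i j : ℕ} (h : i ≠ j) : Free j (YY i) := by
  intro a b r
  fin_cases a <;> fin_cases b
  · change pd j r (X (i, 0)) = 0
    rw [pd_X]; simp [h]
  · change pd j r (X (i, 1)) = 0
    rw [pd_X]; simp [h]
  · change pd j r (X (i, 2)) = 0
    rw [pd_X]; simp [h]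
  · change pd j r (-X (i, 0)) = 0
    rw [map_neg, pd_X]; simp [h]

lemma Free.nsmul {j : ℕ} {F : MM} (hF : Free j F) (c : ℕ) : Free j (c • F) := by
  intro i i' r
  rw [Matrix.smul_apply, map_nsmul, hF, smul_zero]

lemma Free_gg (j d : ℕ) : ∀ m, (j < m ∨ m + 3 ^ d ≤ j) → Free j (gg d m) := by
  induction d with
  | zero => intro m hm; exact Free.YY (by omega)
  | succ d ih =>
    intro m hm
    have h3 : 0 < 3 ^ d := by positivity
    rw [pow_succ] at hm
    have h0 := ih m (by omega)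
    have h1 := ih (m + 3 ^ d) (by omega)
    have h2 := ih (m + 2 * 3 ^ d) (by omega)
    exact (((h0.mul h1).sub (h1.mul h0)).mul h2).sub (h2.mul ((h0.mul h1).sub (h1.mul h0)))

/-- `T` is linear over `f`. -/
def Sc (T : AA →+ AA) (f : AA) : Prop := ∀ h, T (f * h) = f * T h

lemma Lap_Sc {i j : ℕ} {f : AA} (hi : ∀ r, pd i r f = 0) (hj : ∀ r, pd j r f = 0) :
    Sc (Lap i j) f := by
  intro h
  rw [Lap_apply, Lap_apply]
  simp only [Derivation.leibniz, hj, smul_zero, add_zero, smul_eq_mul, hi, mul_zero]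
  ring

lemma Cop_Sc {f : AA} (d : ℕ) : ∀ m, (∀ j, m ≤ j → j < m + 3 ^ d → ∀ r, pd j r f = 0) →
    Sc (Cop d m) f := by
  induction d with
  | zero => intro m _ h; rfl
  | succ d ih =>
    intro m hm h
    have h3 : 0 < 3 ^ d := by positivity
    rw [pow_succ] at hm
    rw [Cop_succ, Cop_succ]
    rw [ih (m + 2 * 3 ^ d) (fun j h1 h2 => hm j (by omega) (by omega))]
    rw [ih (m + 3 ^ d) (fun j h1 h2 => hm j (by omega) (by omega))]
    rw [ih m (fun j h1 h2 => hm j (by omega) (by omega))]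
    rw [Lap_Sc (fun r => hm _ (by omega) (by omega) r) (fun r => hm _ (by omega) (by omega) r)]

lemma ent_mulL {T : AA →+ AA} {F : MM} (hF : ∀ i i', Sc T (F i i')) (G : MM) :
    ent T (F * G) = F * ent T G := by
  apply Matrix.ext
  intro i j
  rw [ent_apply, Matrix.mul_apply, Matrix.mul_apply, Fin.sum_univ_two, Fin.sum_univ_two, map_add,
    hF, hF]
  rfl

lemma ent_mulR {T : AA →+ AA} {F : MM} (hF : ∀ i i', Sc T (F i i')) (G : MM) :
    ent T (G * F) = ent T G * F := by
  apply Matrix.ext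
  intro i j
  rw [ent_apply, Matrix.mul_apply, Matrix.mul_apply, Fin.sum_univ_two, Fin.sum_univ_two, map_add,
    mul_comm, hF, mul_comm (G i 1), hF, mul_comm, mul_comm (F 1 j)]
  rfl

lemma Lap_YYY {m j l : ℕ} (h1 : m ≠ j) (h2 : m ≠ l) (h3 : j ≠ l) :
    ent (Lap j l) ((YY m * YY j - YY j * YY m) * YY l - YY l * (YY m * YY j - YY j * YY m))
      = 4 • YY m := by
  have e1 : ∀ r s, pd j r (X (m, s)) = 0 := fun r s => by rw [pd_X]; simp [h1]
  have e2 : ∀ r s, pd l r (X (m, s)) = 0 := fun r s => by rw [pd_X]; simp [h2]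
  have e3 : ∀ r s, pd l r (X (j, s)) = 0 := fun r s => by rw [pd_X]; simp [h3]
  have e4 : ∀ r s, pd j r (X (l, s)) = 0 := fun r s => by rw [pd_X]; simp [h3.symm]
  have e5 : ∀ r s, pd j r (X (j, s)) = if s = r then 1 else 0 := fun r s => by rw [pd_X]; simp
  have e6 : ∀ r s, pd l r (X (l, s)) = if s = r then 1 else 0 := fun r s => by rw [pd_X]; simp
  have h5 := five_eq
  apply mm_ext
  · rw [Matrix.smul_apply]
    simp only [ent_apply, Matrix.sub_apply, mul00, mul01, mul10, mul11, YY00, YY01, YY10, YY11,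
      Lap_apply, map_sub, map_add, map_neg, Derivation.leibniz, e1, e2, e3, e4, e5, e6, smul_eq_mul]
    simp
    ring
  · rw [Matrix.smul_apply]
    simp only [ent_apply, Matrix.sub_apply, mul00, mul01, mul10, mul11, YY00, YY01, YY10, YY11,
      Lap_apply, map_sub, map_add, map_neg, Derivation.leibniz, e1, e2, e3, e4, e5, e6, smul_eq_mul]
    simp
    linear_combination (2 * X (m, 1)) * h5
  · rw [Matrix.smul_apply]
    simp only [ent_apply, Matrix.sub_apply, mul00, mul01, mul10, mul11, YY00, YY01, YY10, YY11,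
      Lap_apply, map_sub, map_add, map_neg, Derivation.leibniz, e1, e2, e3, e4, e5, e6, smul_eq_mul]
    simp
    linear_combination (2 * X (m, 2)) * h5
  · rw [Matrix.smul_apply]
    simp only [ent_apply, Matrix.sub_apply, mul00, mul01, mul10, mul11, YY00, YY01, YY10, YY11,
      Lap_apply, map_sub, map_add, map_neg, Derivation.leibniz, e1, e2, e3, e4, e5, e6, smul_eq_mul]
    simp
    ring

lemma Sc_of_Free {d m : ℕ} {F : MM} (h : ∀ j, m ≤ j → j < m + 3 ^ d → Free j F) (i i' : Fin 2) :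
    Sc (Cop d m) (F i i') :=
  Cop_Sc d m fun j h1 h2 r => h j h1 h2 i i' r

/-- the constant. -/
def cc : ℕ → ℕ
  | 0 => 1
  | d + 1 => 4 * (cc d * (cc d * cc d))

lemma ent_Cop_succ (d m : ℕ) (F : MM) : ent (Cop (d + 1) m) F =
    ent (Lap (m + 3 ^ d) (m + 2 * 3 ^ d))
      (ent (Cop d m) (ent (Cop d (m + 3 ^ d)) (ent (Cop d (m + 2 * 3 ^ d)) F))) := by
  apply Matrix.ext
  intro i j
  rw [ent_apply, ent_apply, ent_apply, ent_apply, ent_apply, Cop_succ]

lemma Cop_gg (d : ℕ) : ∀ m, ent (Cop d m) (gg d m) = cc d • YY m := by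
  induction d with
  | zero => intro m; rw [cc, one_smul]; rfl
  | succ d ih =>
    intro m
    have h3 : 0 < 3 ^ d := by positivity
    rw [ent_Cop_succ, gg_succ]
    have ih0 := ih m
    have ih1 := ih (m + 3 ^ d)
    have ih2 := ih (m + 2 * 3 ^ d)
    have hL := Lap_YYY (m := m) (j := m + 3 ^ d) (l := m + 2 * 3 ^ d) (by omega) (by omega) (by omega)
    have f0 : ∀ j, (j < m ∨ m + 3 ^ d ≤ j) → Free j (gg d m) := fun j hj => Free_gg j d m hj
    have f1 : ∀ j, (j < m + 3 ^ d ∨ m + 2 * 3 ^ d ≤ j) → Free j (gg d (m + 3 ^ d)) :=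
      fun j hj => Free_gg j d _ (by omega)
    have f2 : ∀ j, (j < m + 2 * 3 ^ d ∨ m + 3 * 3 ^ d ≤ j) → Free j (gg d (m + 2 * 3 ^ d)) :=
      fun j hj => Free_gg j d _ (by omega)
    have y1 : ∀ j, m + 3 ^ d ≠ j → Free j (cc d • YY (m + 3 ^ d)) :=
      fun j hj => (Free.YY hj).nsmul _
    have y2 : ∀ j, m + 2 * 3 ^ d ≠ j → Free j (cc d • YY (m + 2 * 3 ^ d)) :=
      fun j hj => (Free.YY hj).nsmul _
    generalize hj : m + 3 ^ d = j at *
    generalize hl : m + 2 * 3 ^ d = l at *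
    -- first step
    have s1 : ∀ i i', Sc (Cop d l) ((gg d m * gg d j - gg d j * gg d m) i i') :=
      Sc_of_Free fun x hx1 hx2 => by
        have a := f0 x (by omega)
        have b := f1 x (by omega)
        exact (a.mul b).sub (b.mul a)
    have s2 : ∀ i i', Sc (Cop d j) ((cc d • YY l) i i') :=
      Sc_of_Free fun x hx1 hx2 => y2 x (by omega)
    have s3 : ∀ i i', Sc (Cop d j) (gg d m i i') :=
      Sc_of_Free fun x hx1 hx2 => f0 x (by omega)
    have s4 : ∀ i i', Sc (Cop d m) ((cc d • YY l) i i') :=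
      Sc_of_Free fun x hx1 hx2 => y2 x (by omega)
    have s5 : ∀ i i', Sc (Cop d m) ((cc d • YY j) i i') :=
      Sc_of_Free fun x hx1 hx2 => y1 x (by omega)
    have t1 : ent (Cop d j) (gg d m * gg d j - gg d j * gg d m)
        = gg d m * (cc d • YY j) - (cc d • YY j) * gg d m := by
      rw [map_sub, ent_mulL s3, ent_mulR s3, ih1]
    have t2 : ent (Cop d m) (gg d m * (cc d • YY j) - (cc d • YY j) * gg d m)
        = (cc d • YY m) * (cc d • YY j) - (cc d • YY j) * (cc d • YY m) := by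
      rw [map_sub, ent_mulL s5, ent_mulR s5, ih0]
    rw [map_sub (ent (Cop d l)), ent_mulL s1, ent_mulR s1, ih2]
    rw [map_sub (ent (Cop d j)), ent_mulL s2, ent_mulR s2, t1]
    rw [map_sub (ent (Cop d m)), ent_mulL s4, ent_mulR s4, t2]
    have hc : (cc d • YY m * (cc d • YY j) - cc d • YY j * (cc d • YY m)) * (cc d • YY l)
        - (cc d • YY l) * (cc d • YY m * (cc d • YY j) - cc d • YY j * (cc d • YY m))
        = (cc d * (cc d * cc d)) • ((YY m * YY j - YY j * YY m) * YY l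
          - YY l * (YY m * YY j - YY j * YY m)) := by
      simp only [smul_mul_assoc, mul_smul_comm, ← smul_sub, smul_smul, mul_assoc]
    rw [hc, map_nsmul, hL, smul_smul, cc]
    congr 1
    ring

lemma four_ne : ((4 : ℕ) : ZMod 5) ≠ 0 := by decide
lemma three_ne : (3 : ZMod 5) ≠ 0 := by decide
lemma eight_eq : (3 : ZMod 5) * (1 + 1) + 1 + 1 = 3 := by decide

lemma cc_ne (d : ℕ) : (cc d : ZMod 5) ≠ 0 := by
  have : Fact (Nat.Prime 5) := ⟨by norm_num⟩
  induction d with
  | zero => rw [cc]; decide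
  | succ d ih =>
    rw [cc, Nat.cast_mul, Nat.cast_mul, Nat.cast_mul]
    exact mul_ne_zero four_ne (mul_ne_zero ih (mul_ne_zero ih ih))

lemma Lam_gg (k : ℕ) : Lam k (gg k 0) ≠ 0 := by
  have : Fact (Nat.Prime 5) := ⟨by norm_num⟩
  rw [Lam_apply, Cop_gg, map_nsmul, map_nsmul, Dv_apply, YY00, YY01, YY10, YY11]
  have h : constantCoeff (3 * pd 0 0 (X (0, 0) - -X (0, 0)) + pd 0 1 (X (0, 1)) 
      + pd 0 2 (X (0, 2)) : AA) = (3 : ZMod 5) := by
    simp only [map_sub, map_neg, pd_X]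
    simp
    rw [show constantCoeff (3 : AA) = 3 from map_ofNat _ 3]
    exact eight_eq
  rw [h, nsmul_eq_mul]
  exact mul_ne_zero (cc_ne k) three_ne

end Pool.Agent.CentralAut.E5
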