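import Pool.Agent.CentralAut.Exp5C

set_option autoImplicit false
set_option linter.unusedSimpArgs false
set_option linter.unusedVariables false

namespace Pool.Agent.CentralAut.E5

open MvPolynomial

/-- the square ideal. -/
noncomputable def QQ (n : ℕ) : Ideal AA := ⨆ j : Fin n, II j * II j

/-- the ideal of the variables. -/
noncomputable def mI (n : ℕ) : Ideal AA := ⨆ j : Fin n, II j

lemma II_le_mI {n j : ℕ} (hj : j < n) : II j ≤ mI n :=
  le_iSup (fun j : Fin n => II j) ⟨j, hj⟩

lemma II2_le_QQ {n j : ℕ} (hj : j < n) : II j * II j ≤ QQ n :=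
  le_iSup (fun j : Fin n => II j * II j) ⟨j, hj⟩

/-- entries in an ideal. -/
def MI (I : Ideal AA) (F : MM) : Prop := ∀ i i', F i i' ∈ I

lemma MI.zero (I : Ideal AA) : MI I 0 := fun i i' => zero_mem _

lemma MI.add {I : Ideal AA} {F G : MM} (hF : MI I F) (hG : MI I G) : MI I (F + G) :=
  fun i i' => add_mem (hF i i') (hG i i')

lemma MI.sub {I : Ideal AA} {F G : MM} (hF : MI I F) (hG : MI I G) : MI I (F - G) :=
  fun i i' => sub_mem (hF i i') (hG i i')

lemma MI.neg {I : Ideal AA} {F : MM} (hF : MI I F) : MI I (-F) :=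
  fun i i' => neg_mem (hF i i')

lemma MI.mulR {I : Ideal AA} {F : MM} (hF : MI I F) (G : MM) : MI I (F * G) := by
  intro i i'
  rw [Matrix.mul_apply]
  exact sum_mem fun k _ => Ideal.mul_mem_right _ _ (hF _ _)

lemma MI.mulL {I : Ideal AA} {F : MM} (hF : MI I F) (G : MM) : MI I (G * F) := by
  intro i i'
  rw [Matrix.mul_apply]
  exact sum_mem fun k _ => Ideal.mul_mem_left _ _ (hF _ _)

lemma MI.mul {I I' : Ideal AA} {F G : MM} (hF : MI I F) (hG : MI I' G) : MI (I * I') (F * G) := by
  intro i i'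
  rw [Matrix.mul_apply]
  exact sum_mem fun k _ => Ideal.mul_mem_mul (hF _ _) (hG _ _)

lemma MI.mono {I I' : Ideal AA} (h : I ≤ I') {F : MM} (hF : MI I F) : MI I' F :=
  fun i i' => h (hF i i')

lemma Tr_zero : Tr 0 = 0 := by simp only [Tr, map_zero, add_zero]

lemma Tr_add (F G : MM) : Tr (F + G) = Tr F + Tr G := by
  simp only [Tr, map_add]; abel

lemma Tr_mulL {Z : MM} (hZ : Sig Z = Z) (F : MM) : Tr (Z * F) = Z * Tr F := by
  simp only [Tr, map_mul, hZ, mul_add]

lemma Tr_mulR {Z : MM} (hZ : Sig Z = Z) (F : MM) : Tr (F * Z) = Tr F * Z := by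
  simp only [Tr, map_mul, hZ, add_mul]

/-- the fixed ring. -/
noncomputable abbrev BB : Subring MM := RingHom.eqLocus Sig (RingHom.id MM)

lemma BB_fix (x : BB) : Sig (x : MM) = x := x.2

/-- the ideal of traces and small elements. -/
noncomputable def JJ (n : ℕ) : Ideal BB where
  carrier := {x | ∃ F : MM, MI (QQ n) ((x : MM) - Tr F)}
  add_mem' := by
    rintro x y ⟨F, hF⟩ ⟨G, hG⟩
    refine ⟨F + G, ?_⟩
    have h : ((x + y : BB) : MM) - Tr (F + G) = ((x : MM) - Tr F) + ((y : MM) - Tr G) := by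
      rw [Tr_add, Subring.coe_add]; abel
    rw [h]
    exact hF.add hG
  zero_mem' := ⟨0, by
    rw [Tr_zero, Subring.coe_zero, sub_zero]; exact MI.zero _⟩
  smul_mem' := by
    rintro z x ⟨F, hF⟩
    refine ⟨(z : MM) * F, ?_⟩
    have h : ((z • x : BB) : MM) - Tr ((z : MM) * F) = (z : MM) * ((x : MM) - Tr F) := by
      rw [Tr_mulL (BB_fix z), smul_eq_mul, Subring.coe_mul, mul_sub]
    rw [h]
    exact hF.mulL _

instance (n : ℕ) : (JJ n).IsTwoSided := by
  constructor
  rintro x z ⟨F, hF⟩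
  refine ⟨F * (z : MM), ?_⟩
  have h : ((x * z : BB) : MM) - Tr (F * (z : MM)) = ((x : MM) - Tr F) * (z : MM) := by
    rw [Tr_mulR (BB_fix z), Subring.coe_mul, sub_mul]
  rw [h]
  exact hF.mulR _

lemma JJ_of_MI {n : ℕ} {x : BB} (h : MI (QQ n) (x : MM)) : x ∈ JJ n :=
  ⟨0, by rw [Tr_zero, sub_zero]; exact h⟩

lemma pow5_mem {n : ℕ} {t : AA} (ht : t ∈ mI n) : t ^ 5 ∈ QQ n := by
  have : Fact (Nat.Prime 5) := ⟨by norm_num⟩
  unfold mI at ht
  induction ht using Submodule.iSup_induction' with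
  | mem j x hx =>
    apply II2_le_QQ j.2
    have : x ^ 5 = (x ^ 3) * (x * x) := by ring
    rw [this]
    exact Ideal.mul_mem_left _ _ (Ideal.mul_mem_mul hx hx)
  | zero => simp
  | add x y _ _ hx hy =>
    rw [add_pow_char x y 5]
    exact add_mem hx hy

lemma pow5_JJ {n : ℕ} {x : BB} (hx : MI (mI n) (x : MM)) : x ^ 5 ∈ JJ n := by
  have : Fact (Nat.Prime 5) := ⟨by norm_num⟩
  have hfix := BB_fix x
  have f00 := congrFun (congrFun hfix 0) 0
  have f01 := congrFun (congrFun hfix 0) 1
  have f10 := congrFun (congrFun hfix 1) 0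
  have f11 := congrFun (congrFun hfix 1) 1
  rw [Sig00] at f00
  rw [Sig01] at f01
  rw [Sig10] at f10
  rw [Sig11] at f11
  have h5 := five_eq
  have h3 : sg5 3 = 3 := map_ofNat sg5 3
  set x00 := (x : MM) 0 0 with hx00
  set x01 := (x : MM) 0 1 with hx01
  set x10 := (x : MM) 1 0 with hx10
  set x11 := (x : MM) 1 1 with hx11
  set t : AA := 3 * (x00 + x11) with ht
  set a : AA := x00 - t with ha
  have htm : t ∈ mI n := Ideal.mul_mem_left _ _ (add_mem (hx 0 0) (hx 1 1))
  have hsa : sg5 a = a - x10 := by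
    rw [ha, ht, map_sub, map_mul, map_add, h3]
    linear_combination (-2) * f00 - 3 * f11 - f10
  have hsb : sg5 x01 = x01 + 2 * a - x10 := by
    rw [ha, ht]
    linear_combination f01 + f00 - f11 - f10 + (x00 + x11) * h5
  have htr := trace_identity a x01 x10 hsa hsb f10
  set y : MM := !![a, x01; x10, -a] with hy
  have hxy : (x : MM) = y + t • (1 : MM) := by
    apply mm_ext
    · rw [Matrix.add_apply, Matrix.smul_apply, one00, hy]
      change x00 = a + t • (1 : AA)
      rw [ha, smul_eq_mul]; ring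
    · rw [Matrix.add_apply, Matrix.smul_apply, one01, hy]
      change x01 = x01 + t • (0 : AA)
      rw [smul_eq_mul]; ring
    · rw [Matrix.add_apply, Matrix.smul_apply, one10, hy]
      change x10 = x10 + t • (0 : AA)
      rw [smul_eq_mul]; ring
    · rw [Matrix.add_apply, Matrix.smul_apply, one11, hy]
      change x11 = -a + t • (1 : AA)
      rw [ha, smul_eq_mul, ht]
      linear_combination (-(x00 + x11)) * h5
  have hyy : y * y = (a ^ 2 + x01 * x10) • (1 : MM) := by
    apply mm_ext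
    · rw [mul00, Matrix.smul_apply, one00, hy, smul_eq_mul]
      change a * a + x01 * x10 = _
      ring
    · rw [mul01, Matrix.smul_apply, one01, hy, smul_eq_mul]
      change a * x01 + x01 * (-a) = _
      ring
    · rw [mul10, Matrix.smul_apply, one10, hy, smul_eq_mul]
      change x10 * a + -a * x10 = _
      ring
    · rw [mul11, Matrix.smul_apply, one11, hy, smul_eq_mul]
      change x10 * x01 + -a * -a = _
      ring
  have hy5 : y ^ 5 = ((a ^ 2 + x01 * x10) ^ 2) • y := by
    have : y ^ 5 = (y * y) * (y * y) * y := by noncomm_ring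
    rw [this, hyy]
    simp only [smul_mul_assoc, mul_smul_comm, one_mul, mul_one, smul_smul]
    congr 1
    ring
  have ht5 : (t • (1 : MM)) ^ 5 = (t ^ 5) • (1 : MM) := by
    rw [smul_pow, one_pow]
  have hcomm : Commute y (t • (1 : MM)) := (Commute.one_right y).smul_right t
  refine ⟨F3 (a ^ 2 + x01 * x10) a x01, ?_⟩
  rw [htr, Subring.coe_pow, hxy, add_pow_char_of_commute 5 hcomm, hy5, ht5, add_sub_cancel_left]
  intro i i'
  rw [Matrix.smul_apply, smul_eq_mul]
  exact Ideal.mul_mem_right _ _ (pow5_mem htm)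

end Pool.Agent.CentralAut.E5
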