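import Pool.Agent.CentralAut.Exp5D

set_option autoImplicit false
set_option linter.unusedSimpArgs false
set_option linter.unusedVariables false

namespace Pool.Agent.CentralAut.E5

open MvPolynomial

/-- embedding of an entry. -/
noncomputable def emb (i i' : Fin 2) (f : AA) : MM := Matrix.of fun a b => if a = i ∧ b = i' then f else 0

lemma emb_apply (i i' : Fin 2) (f : AA) (a b : Fin 2) :
    emb i i' f a b = if a = i ∧ b = i' then f else 0 := rfl

lemma emb_add (i i' : Fin 2) (f g : AA) : emb i i' (f + g) = emb i i' f + emb i i' g := by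
  apply Matrix.ext
  intro a b
  rw [Matrix.add_apply, emb_apply, emb_apply, emb_apply]
  split_ifs
  · rfl
  · rw [add_zero]

lemma emb_zero (i i' : Fin 2) : emb i i' 0 = 0 := by
  apply Matrix.ext
  intro a b
  rw [emb_apply, ite_self, Matrix.zero_apply]

lemma Lam_emb (k : ℕ) (i i' : Fin 2) {f : AA} (hf : f ∈ QQ (3 ^ k)) : Lam k (emb i i' f) = 0 := by
  unfold QQ at hf
  induction hf using Submodule.iSup_induction' with
  | mem j x hx =>
    apply Lam_II2 k j j.2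
    intro a b
    rw [emb_apply]
    split_ifs
    · exact hx
    · exact zero_mem _
  | zero => rw [emb_zero, map_zero]
  | add x y _ _ hx hy => rw [emb_add, map_add, hx, hy, add_zero]

lemma Lam_QQ (k : ℕ) {F : MM} (hF : MI (QQ (3 ^ k)) F) : Lam k F = 0 := by
  have h : F = emb 0 0 (F 0 0) + emb 0 1 (F 0 1) + emb 1 0 (F 1 0) + emb 1 1 (F 1 1) := by
    apply mm_ext
    · simp [Matrix.add_apply, emb_apply]
    · simp [Matrix.add_apply, emb_apply]
    · simp [Matrix.add_apply, emb_apply]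
    · simp [Matrix.add_apply, emb_apply]
  rw [h, map_add, map_add, map_add, Lam_emb k _ _ (hF _ _), Lam_emb k _ _ (hF _ _),
    Lam_emb k _ _ (hF _ _), Lam_emb k _ _ (hF _ _)]
  simp

lemma gg_fix (d : ℕ) : ∀ m, Sig (gg d m) = gg d m := by
  induction d with
  | zero => intro m; exact Sig_YY m
  | succ d ih =>
    intro m
    rw [gg_succ]
    simp only [map_sub, map_mul, ih]

/-- the bracket as an element of the fixed ring. -/
noncomputable def gB (d m : ℕ) : BB := ⟨gg d m, gg_fix d m⟩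

lemma gB_not_mem (k : ℕ) : gB k 0 ∉ JJ (3 ^ k) := by
  rintro ⟨F, hF⟩
  have h1 := Lam_QQ k hF
  rw [map_sub, Lam_Tr, sub_zero] at h1
  exact Lam_gg k h1

lemma MI_YY (j : ℕ) : MI (II j) (YY j) := by
  intro a b
  fin_cases a <;> fin_cases b
  · exact X_mem_II j 0
  · exact X_mem_II j 1
  · exact X_mem_II j 2
  · exact neg_mem (X_mem_II j 0)

lemma MI_gg (d : ℕ) : ∀ m, MI (II m) (gg d m) := by
  induction d with
  | zero => intro m; exact MI_YY m
  | succ d ih =>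
    intro m
    rw [gg_succ]
    have h := ((ih m).mulR (gg d (m + 3 ^ d))).sub ((ih m).mulL (gg d (m + 3 ^ d)))
    exact (h.mulR _).sub (h.mulL _)

/-- the quotient ring. -/
def WW (n : ℕ) : Type := BB ⧸ JJ n

noncomputable instance (n : ℕ) : Ring (WW n) := inferInstanceAs (Ring (BB ⧸ JJ n))

/-- the quotient map. -/
noncomputable def mk (n : ℕ) : BB →+* WW n := Ideal.Quotient.mk (JJ n)

lemma mk_add (n : ℕ) (x y : BB) : mk n (x + y) = mk n x + mk n y := RingHom.map_add _ _ _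
lemma mk_sub (n : ℕ) (x y : BB) : mk n (x - y) = mk n x - mk n y := RingHom.map_sub _ _ _
lemma mk_mul (n : ℕ) (x y : BB) : mk n (x * y) = mk n x * mk n y := RingHom.map_mul _ _ _
lemma mk_zero (n : ℕ) : mk n 0 = 0 := RingHom.map_zero _
lemma mk_one (n : ℕ) : mk n 1 = 1 := RingHom.map_one _
lemma mk_pow (n : ℕ) (x : BB) (k : ℕ) : mk n (x ^ k) = mk n x ^ k := RingHom.map_pow _ _ _

lemma mk_eq_zero {n : ℕ} {x : BB} : mk n x = 0 ↔ x ∈ JJ n := Ideal.Quotient.eq_zero_iff_mem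

lemma mk_surj (n : ℕ) (w : WW n) : ∃ x, mk n x = w := Ideal.Quotient.mk_surjective w

/-- unipotent units. -/
def Has (n : ℕ) (I : Ideal AA) (g : (WW n)ˣ) : Prop :=
  ∃ x : BB, MI I (x : MM) ∧ (g : WW n) = 1 + mk n x

lemma Has.one {n : ℕ} (I : Ideal AA) : Has n I 1 :=
  ⟨0, MI.zero I, by rw [mk_zero, add_zero]; rfl⟩

lemma Has.mul {n : ℕ} {I : Ideal AA} {g h : (WW n)ˣ} (hg : Has n I g) (hh : Has n I h) :
    Has n I (g * h) := by
  obtain ⟨x, hx, hgx⟩ := hg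
  obtain ⟨z, hz, hhz⟩ := hh
  refine ⟨x + z + x * z, ?_, ?_⟩
  · rw [Subring.coe_add, Subring.coe_add, Subring.coe_mul]
    exact (hx.add hz).add (hx.mulR _)
  · rw [Units.val_mul, hgx, hhz, mk_add, mk_add, mk_mul]
    noncomm_ring

lemma Has.pow {n : ℕ} {I : Ideal AA} {g : (WW n)ˣ} (hg : Has n I g) (k : ℕ) :
    Has n I (g ^ k) := by
  induction k with
  | zero => rw [pow_zero]; exact Has.one I
  | succ k ih => rw [pow_succ]; exact ih.mul hg

lemma Has.pow5 {n : ℕ} {g : (WW n)ˣ} (hg : Has n (mI n) g) : g ^ 5 = 1 := by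
  have : Fact (Nat.Prime 5) := ⟨by norm_num⟩
  obtain ⟨x, hx, hgx⟩ := hg
  apply Units.ext
  have h1 : (1 + x) ^ 5 = 1 + x ^ 5 := by
    apply Subtype.ext
    rw [Subring.coe_pow, Subring.coe_add, Subring.coe_one, Subring.coe_add, Subring.coe_one, 
      Subring.coe_pow, add_pow_char_of_commute 5 (Commute.one_left _), one_pow]
  have h2 : (1 + mk n x) ^ 5 = 1 := by
    have : (1 + mk n x) ^ 5 = mk n ((1 + x) ^ 5) := by rw [mk_pow, mk_add, mk_one]
    rw [this, h1, mk_add, mk_one, mk_eq_zero.mpr (pow5_JJ hx), add_zero]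
  rw [Units.val_pow_eq_pow_val, hgx, h2, Units.val_one]

lemma Has.inv {n : ℕ} {I : Ideal AA} (hI : I ≤ mI n) {g : (WW n)ˣ} (hg : Has n I g) :
    Has n I g⁻¹ := by
  have h5 : g ^ 5 = 1 := by
    apply Has.pow5
    obtain ⟨x, hx, hgx⟩ := hg
    exact ⟨x, hx.mono hI, hgx⟩
  have : g⁻¹ = g ^ 4 := by
    rw [inv_eq_iff_mul_eq_one, ← pow_succ']
    exact h5
  rw [this]
  exact hg.pow 4

/-- the subgroup of unipotent units. -/
def GI (n : ℕ) (I : Ideal AA) (hI : I ≤ mI n) : Subgroup (WW n)ˣ where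
  carrier := {g | Has n I g}
  mul_mem' := fun hg hh => Has.mul hg hh
  one_mem' := Has.one I
  inv_mem' := fun hg => Has.inv hI hg

lemma mem_GI {n : ℕ} {I : Ideal AA} {hI : I ≤ mI n} {g : (WW n)ˣ} : g ∈ GI n I hI ↔ Has n I g :=
  Iff.rfl

instance (n : ℕ) (I : Ideal AA) (hI : I ≤ mI n) : (GI n I hI).Normal := by
  constructor
  intro h hh g
  obtain ⟨x, hx, hhx⟩ := mem_GI.mp hh
  obtain ⟨b, hb⟩ := mk_surj n (g : WW n)
  obtain ⟨b', hb'⟩ := mk_surj n ((g⁻¹ : (WW n)ˣ) : WW n)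
  refine ⟨b * x * b', ?_, ?_⟩
  · rw [Subring.coe_mul, Subring.coe_mul]
    exact (hx.mulL _).mulR _
  · rw [Units.val_mul, Units.val_mul, hhx, mk_mul, mk_mul, hb, hb', mul_add, add_mul, mul_one,
      Units.mul_inv]

lemma GI_comm {n j : ℕ} (hj : j < n) {g h : (WW n)ˣ} (hg : Has n (II j) g) (hh : Has n (II j) h) :
    g * h = h * g := by
  obtain ⟨x, hx, hgx⟩ := hg
  obtain ⟨z, hz, hhz⟩ := hh
  have h1 : mk n x * mk n z = 0 := by
    rw [← mk_mul, mk_eq_zero]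
    apply JJ_of_MI
    rw [Subring.coe_mul]
    exact (hx.mul hz).mono (II2_le_QQ hj)
  have h2 : mk n z * mk n x = 0 := by
    rw [← mk_mul, mk_eq_zero]
    apply JJ_of_MI
    rw [Subring.coe_mul]
    exact (hz.mul hx).mono (II2_le_QQ hj)
  apply Units.ext
  rw [Units.val_mul, Units.val_mul, hgx, hhz]
  have e1 : (1 + mk n x) * (1 + mk n z) = 1 + mk n x + mk n z + mk n x * mk n z := by noncomm_ring
  have e2 : (1 + mk n z) * (1 + mk n x) = 1 + mk n x + mk n z + mk n z * mk n x := by noncomm_ring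
  rw [e1, e2, h1, h2]

lemma unit_commutator {R : Type*} [Ring R] (g h : Rˣ) (X Z : R) (hg : (g : R) = 1 + X)
    (hh : (h : R) = 1 + Z) (hX : X * X = 0) (hZ : Z * Z = 0) (hXZX : X * Z * X = 0)
    (hZXZ : Z * X * Z = 0) : ((g * h * g⁻¹ * h⁻¹ : Rˣ) : R) = 1 + (X * Z - Z * X) := by
  have hgi : ((g⁻¹ : Rˣ) : R) = 1 - X := by
    rw [Units.inv_eq_of_mul_eq_one_right]
    rw [hg]
    have : (1 + X) * (1 - X) = 1 - X * X := by noncomm_ring
    rw [this, hX, sub_zero]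
  have hhi : ((h⁻¹ : Rˣ) : R) = 1 - Z := by
    rw [Units.inv_eq_of_mul_eq_one_right]
    rw [hh]
    have : (1 + Z) * (1 - Z) = 1 - Z * Z := by noncomm_ring
    rw [this, hZ, sub_zero]
  rw [Units.val_mul, Units.val_mul, Units.val_mul, hg, hh, hgi, hhi]
  have e : (1 + X) * (1 + Z) * (1 - X) * (1 - Z) = 1 + (X * Z - Z * X) - X * X + X * X * Z - Z * Z
      + Z * X * Z - X * (Z * Z) - X * Z * X + X * Z * X * Z := by noncomm_ring
  rw [e, hX, hZ, hXZX, hZXZ]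
  simp

lemma commutator_val {n i j : ℕ} (hi : i < n) (hj : j < n) (g h : (WW n)ˣ) (x z : BB)
    (hx : MI (II i) (x : MM)) (hz : MI (II j) (z : MM)) (hg : (g : WW n) = 1 + mk n x)
    (hh : (h : WW n) = 1 + mk n z) :
    ((g * h * g⁻¹ * h⁻¹ : (WW n)ˣ) : WW n) = 1 + mk n (x * z - z * x) := by
  rw [mk_sub, mk_mul, mk_mul]
  apply unit_commutator g h (mk n x) (mk n z) hg hh
  · rw [← mk_mul, mk_eq_zero]
    apply JJ_of_MI
    rw [Subring.coe_mul]
    exact (hx.mul hx).mono (II2_le_QQ hi)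
  · rw [← mk_mul, mk_eq_zero]
    apply JJ_of_MI
    rw [Subring.coe_mul]
    exact (hz.mul hz).mono (II2_le_QQ hj)
  · rw [← mk_mul, ← mk_mul, mk_eq_zero]
    apply JJ_of_MI
    rw [Subring.coe_mul, Subring.coe_mul]
    exact ((hx.mulR _).mul hx).mono (II2_le_QQ hi)
  · rw [← mk_mul, ← mk_mul, mk_eq_zero]
    apply JJ_of_MI
    rw [Subring.coe_mul, Subring.coe_mul]
    exact ((hz.mulR _).mul hz).mono (II2_le_QQ hj)

/-- the generating units. -/
noncomputable def uu (n : ℕ) (j : Fin n) : (WW n)ˣ where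
  val := 1 + mk n (gB 0 j)
  inv := 1 - mk n (gB 0 j)
  val_inv := by
    have h : mk n (gB 0 j) * mk n (gB 0 j) = 0 := by
      rw [← mk_mul, mk_eq_zero]
      apply JJ_of_MI
      rw [Subring.coe_mul]
      exact ((MI_gg 0 j).mul (MI_gg 0 j)).mono (II2_le_QQ j.2)
    have e : (1 + mk n (gB 0 j)) * (1 - mk n (gB 0 j)) = 1 - mk n (gB 0 j) * mk n (gB 0 j) := by
      noncomm_ring
    rw [e, h, sub_zero]
  inv_val := by
    have h : mk n (gB 0 j) * mk n (gB 0 j) = 0 := by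
      rw [← mk_mul, mk_eq_zero]
      apply JJ_of_MI
      rw [Subring.coe_mul]
      exact ((MI_gg 0 j).mul (MI_gg 0 j)).mono (II2_le_QQ j.2)
    have e : (1 - mk n (gB 0 j)) * (1 + mk n (gB 0 j)) = 1 - mk n (gB 0 j) * mk n (gB 0 j) := by
      noncomm_ring
    rw [e, h, sub_zero]

lemma uu_val (n : ℕ) (j : Fin n) : ((uu n j : (WW n)ˣ) : WW n) = 1 + mk n (gB 0 j) := rfl

lemma uu_has (n : ℕ) (j : Fin n) : Has n (II j) (uu n j) := ⟨gB 0 j, MI_gg 0 j, rfl⟩

/-- the exponent five group. -/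
noncomputable abbrev PP (n : ℕ) : Subgroup (WW n)ˣ := Subgroup.closure (Set.range (uu n))

/-- the generators. -/
noncomputable def yP (n : ℕ) (j : Fin n) : PP n := ⟨uu n j, Subgroup.subset_closure ⟨j, rfl⟩⟩

lemma PP_le (n : ℕ) : PP n ≤ GI n (mI n) le_rfl := by
  rw [Subgroup.closure_le]
  rintro _ ⟨j, rfl⟩
  obtain ⟨x, hx, h⟩ := uu_has n j
  exact ⟨x, hx.mono (II_le_mI j.2), h⟩

lemma PP_exp (n : ℕ) (g : PP n) : g ^ 5 = 1 := by
  apply Subtype.ext
  rw [Subgroup.coe_pow, Subgroup.coe_one]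
  exact Has.pow5 (PP_le n g.2)

lemma PP_gen (n : ℕ) : Subgroup.closure (Set.range (yP n)) = ⊤ := by
  have h : Set.range (yP n) = (fun x : PP n => (x : (WW n)ˣ)) ⁻¹' (Set.range (uu n)) := by
    ext x
    constructor
    · rintro ⟨j, rfl⟩
      exact ⟨j, rfl⟩
    · rintro ⟨j, hj⟩
      exact ⟨j, Subtype.ext hj⟩
  rw [h]
  exact Subgroup.closure_closure_coe_preimage

lemma PP_ab (n : ℕ) (i : Fin n) (a : PP n) (ha : a ∈ Subgroup.normalClosure {yP n i}) (b : PP n)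
    (hb : b ∈ Subgroup.normalClosure {yP n i}) : a * b = b * a := by
  have hle : Subgroup.normalClosure {yP n i} ≤
      (GI n (II i) (II_le_mI i.2)).comap (PP n).subtype := by
    apply Subgroup.normalClosure_le_normal
    rintro _ rfl
    exact uu_has n i
  apply Subtype.ext
  rw [Subgroup.coe_mul, Subgroup.coe_mul]
  exact GI_comm i.2 (hle ha) (hle hb)

lemma PP_derived (n d : ℕ) : ∀ m, m + 3 ^ d ≤ n → ∃ g ∈ derivedSeries (PP n) d,
    (((g : (WW n)ˣ)) : WW n) = 1 + mk n (gB d m) := by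
  induction d with
  | zero =>
    intro m hm
    rw [pow_zero] at hm
    exact ⟨yP n ⟨m, hm⟩, by rw [derivedSeries_zero]; exact Subgroup.mem_top _, rfl⟩
  | succ d ih =>
    intro m hm
    have h3 : 0 < 3 ^ d := by positivity
    rw [pow_succ] at hm
    obtain ⟨g0, hg0, e0⟩ := ih m (by omega)
    obtain ⟨g1, hg1, e1⟩ := ih (m + 3 ^ d) (by omega)
    obtain ⟨g2, hg2, e2⟩ := ih (m + 2 * 3 ^ d) (by omega)
    have hc1 : g0 * g1 * g0⁻¹ * g1⁻¹ ∈ derivedSeries (PP n) d :=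
      mul_mem (mul_mem (mul_mem hg0 hg1) (inv_mem hg0)) (inv_mem hg1)
    have v1 := commutator_val (n := n) (i := m) (j := m + 3 ^ d) (by omega) (by omega) _ _ _ _
      (MI_gg d m) (MI_gg d (m + 3 ^ d)) e0 e1
    have hX : MI (II m) ((gB d m * gB d (m + 3 ^ d) - gB d (m + 3 ^ d) * gB d m : BB) : MM) := by
      change MI (II m) (gg d m * gg d (m + 3 ^ d) - gg d (m + 3 ^ d) * gg d m)
      exact ((MI_gg d m).mulR _).sub ((MI_gg d m).mulL _)
    have v2 := commutator_val (n := n) (i := m) (j := m + 2 * 3 ^ d) (by omega) (by omega)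
      ((g0 * g1 * g0⁻¹ * g1⁻¹ : PP n) : (WW n)ˣ) _ _ _
      hX (MI_gg d (m + 2 * 3 ^ d)) v1 e2
    refine ⟨(g0 * g1 * g0⁻¹ * g1⁻¹) * g2 * (g0 * g1 * g0⁻¹ * g1⁻¹)⁻¹ * g2⁻¹, ?_, ?_⟩
    · rw [derivedSeries_succ]
      exact Subgroup.commutator_mem_commutator hc1 hg2
    · exact v2

theorem exists_exp5 (k : ℕ) : ∃ (P : Type) (_ : Group P) (n : ℕ) (y : Fin n → P),
    (∀ g : P, g ^ 5 = 1) ∧
    (∀ i, ∀ a ∈ Subgroup.normalClosure {y i}, ∀ b ∈ Subgroup.normalClosure {y i}, a * b = b * a) ∧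
    Subgroup.closure (Set.range y) = ⊤ ∧ derivedSeries P k ≠ ⊥ := by
  refine ⟨PP (3 ^ k), inferInstance, 3 ^ k, yP (3 ^ k), PP_exp _, PP_ab _, PP_gen _, ?_⟩
  intro hbot
  obtain ⟨g, hg, e⟩ := PP_derived (3 ^ k) k 0 (by omega)
  rw [hbot, Subgroup.mem_bot] at hg
  rw [hg] at e
  have h0 : mk (3 ^ k) (gB k 0) = 0 := by
    have : (((1 : PP (3 ^ k)) : (WW (3 ^ k))ˣ) : WW (3 ^ k)) = 1 := rfl
    rw [this] at e
    exact left_eq_add.mp e
  exact gB_not_mem k (mk_eq_zero.mp h0)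

end Pool.Agent.CentralAut.E5
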